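import Mathlib

/-!
Chain conditions for posets.
-/

namespace Pool.Agent.P.MP_78a647_lc

/-- `p` and `q` are compatible: they have a common lower bound. -/
def Compat {P : Type} [PartialOrder P] (p q : P) : Prop := ∃ r, r ≤ p ∧ r ≤ q

/-- The countable chain condition: every set of pairwise incompatible elements is countable. -/
def CCC (P : Type) [PartialOrder P] : Prop :=
  ∀ A : Set P, A.Pairwise (fun p q => ¬ Compat p q) → A.Countable

/-- Every ccc poset is productively ccc. -/
def PCCC : Prop :=
  ∀ (P Q : Type) [PartialOrder P] [PartialOrder Q], CCC P → CCC Q → CCC (P × Q)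

/-- Every finite subset of `C` has a common lower bound. -/
def Centered {P : Type} [PartialOrder P] (C : Set P) : Prop :=
  ∀ F : Finset P, (F : Set P) ⊆ C → ∃ r, ∀ p ∈ F, r ≤ p

/-- The poset of finite `K`-homogeneous sets, ordered by reverse inclusion. -/
abbrev Hom {X : Type} (K : X → X → Prop) : Type :=
  OrderDual {s : Finset X // (s : Set X).Pairwise K}

end Pool.Agent.P.MP_78a647_lc
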