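import Pool.Agent.P.MP_78a647_lc.Phi
import Pool.Agent.P.MP_78a647_lc.Defs

/-!
Two ccc posets of finite cliques whose product is not ccc.
-/

namespace Pool.Agent.P.MP_78a647_lc

open Set

variable {O : Type}

def Wit (c : O → O → Prop) (φ : O → ℕ → O) (x y : O) (n : ℕ) : Prop :=
  φ x n ≠ φ y n ∧ c (φ x n) (φ y n)

def KK (c : O → O → Prop) (φ : O → ℕ → O) (i : Bool) (x y : O) : Prop :=
  ∃ n, Wit c φ x y n ∧ n.bodd = i ∧ ∀ m < n, ¬ Wit c φ x y m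

theorem Wit.symm {c : O → O → Prop} (hs : ∀ x y, c x y → c y x) {φ : O → ℕ → O} {x y : O} {n : ℕ}
    (h : Wit c φ x y n) : Wit c φ y x n := ⟨h.1.symm, hs _ _ h.2⟩

theorem KK.symm {c : O → O → Prop} (hs : ∀ x y, c x y → c y x) {φ : O → ℕ → O} {i : Bool}
    {x y : O} (h : KK c φ i x y) : KK c φ i y x := by
  obtain ⟨n, h1, h2, h3⟩ := h
  exact ⟨n, h1.symm hs, h2, fun m hm h4 => h3 m hm (h4.symm hs)⟩

theorem KK.excl {c : O → O → Prop} {φ : O → ℕ → O} {x y : O} (h1 : KK c φ true x y)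
    (h2 : KK c φ false x y) : False := by
  obtain ⟨n, a1, a2, a3⟩ := h1
  obtain ⟨m, b1, b2, b3⟩ := h2
  rcases lt_trichotomy n m with h | h | h
  · exact b3 n h a1
  · subst h; rw [a2] at b2; exact Bool.noConfusion b2
  · exact a3 m h b1

abbrev J (k n0 : ℕ) : Type := Fin k ⊕ (Fin n0 × Fin k)

def pts (φ : O → ℕ → O) (n0 : ℕ) {k : ℕ} (x : Fin k → O) : J k n0 → O :=
  Sum.elim x fun p => φ (x p.2) p.1

variable [LinearOrder O]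

def Mt (𝒜 : Set (Finset O)) (φ : O → ℕ → O) {k n0 : ℕ} (H : Set (J k n0)) (D : J k n0 → O)
    (ξ β : O) (x : Fin k → O) : Prop :=
  (∃ s ∈ 𝒜, (s : Set O) = range x) ∧ (∀ ι ∈ H, β ≤ pts φ n0 x ι) ∧
    (∀ ι, ι ∉ H → pts φ n0 x ι = D ι) ∧ ∀ j, Sum.inl j ∈ H → φ (x j) n0 = ξ

theorem Mt.mono {𝒜 : Set (Finset O)} {φ : O → ℕ → O} {k n0 : ℕ} {H : Set (J k n0)}
    {D : J k n0 → O} {ξ β β' : O} {x : Fin k → O} (h : Mt 𝒜 φ H D ξ β x) (hβ : β' ≤ β) :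
    Mt 𝒜 φ H D ξ β' x :=
  ⟨h.1, fun ι hι => hβ.trans (h.2.1 ι hι), h.2.2⟩

theorem stepA [WellFoundedLT O] [Uncountable O] (hO : ∀ a : O, (Iio a).Countable)
    (g : O → Bool) (i : Bool)
    (hg : ∀ (f : O → O) (a : O), ∃ δ, g δ = i ∧ a < δ ∧ ∀ γ < δ, f γ < δ)
    (φ : O → ℕ → O) (hφ : ∀ x n, φ x n ≤ x) (nx : O → O → ℕ) (px : O → O → O)
    (hnx : ∀ δ' δ, (nx δ' δ).bodd = g δ') (hpx : ∀ δ' δ, δ < δ' → δ ≤ px δ' δ ∧ px δ' δ < δ')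
    (hP : ∀ δ' a, a < δ' → ∀ x, δ' ≤ x → ∃ γ < δ', ∀ δ, γ < δ → δ < δ' →
        φ x (nx δ' δ) = px δ' δ ∧ ∀ n < nx δ' δ, φ x n < δ ∨ δ' ≤ φ x n)
    (𝒜 : Set (Finset O)) (h𝒜 : ¬ 𝒜.Countable) :
    ∃ (k n0 : ℕ) (H : Set (J k n0)) (D : J k n0 → O), n0.bodd = i ∧ (∃ j, Sum.inl j ∈ H) ∧
      ¬ {ξ | ∀ β, ∃ x, Mt 𝒜 φ H D ξ β x}.Countable := by
  classical
  have hf : ∀ p : ℕ × ℕ, ∃ f : O → O, ∀ (H : Set (J p.1 p.2)) (D : J p.1 p.2 → O) (γ : O),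
      (∀ ι, D ι ≤ γ) →
      (∀ ξ ≤ γ, (¬ ∀ β, ∃ x, Mt 𝒜 φ H D ξ β x) → ∀ x, ¬ Mt 𝒜 φ H D ξ (f γ) x) ∧
      ({ξ | ∀ β, ∃ x, Mt 𝒜 φ H D ξ β x}.Countable →
        ∀ ξ, (∀ β, ∃ x, Mt 𝒜 φ H D ξ β x) → ξ < f γ) := by
    intro p
    have h1 : ∀ t : Set (J p.1 p.2) × (J p.1 p.2 → O) × O, ∃ β,
        ((¬ ∀ β, ∃ x, Mt 𝒜 φ t.1 t.2.1 t.2.2 β x) → ∀ x, ¬ Mt 𝒜 φ t.1 t.2.1 t.2.2 β x) ∧
        ({ξ | ∀ β, ∃ x, Mt 𝒜 φ t.1 t.2.1 ξ β x}.Countable →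
          ∀ ξ, (∀ β, ∃ x, Mt 𝒜 φ t.1 t.2.1 ξ β x) → ξ < β) := by
      intro t
      have a1 : ∃ β, (¬ ∀ β, ∃ x, Mt 𝒜 φ t.1 t.2.1 t.2.2 β x) →
          ∀ x, ¬ Mt 𝒜 φ t.1 t.2.1 t.2.2 β x := by
        by_cases h : ∀ β, ∃ x, Mt 𝒜 φ t.1 t.2.1 t.2.2 β x
        · exact ⟨t.2.2, fun h' => (h' h).elim⟩
        · obtain ⟨β, hβ⟩ := not_forall.1 h
          exact ⟨β, fun _ x hx => hβ ⟨x, hx⟩⟩
      have a2 : ∃ β, {ξ | ∀ β, ∃ x, Mt 𝒜 φ t.1 t.2.1 ξ β x}.Countable →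
          ∀ ξ, (∀ β, ∃ x, Mt 𝒜 φ t.1 t.2.1 ξ β x) → ξ < β := by
        by_cases h : {ξ | ∀ β, ∃ x, Mt 𝒜 φ t.1 t.2.1 ξ β x}.Countable
        · obtain ⟨β, hβ⟩ := exists_gt_of_countable hO h
          exact ⟨β, fun _ ξ hξ => hβ ξ hξ⟩
        · exact ⟨t.2.2, fun h' => (h h').elim⟩
      obtain ⟨β1, h1⟩ := a1
      obtain ⟨β2, h2⟩ := a2
      exact ⟨max β1 β2, fun h x hx => h1 h x (hx.mono (le_max_left _ _)),
        fun h ξ hξ => (h2 h ξ hξ).trans_le (le_max_right _ _)⟩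
    choose h hh1 hh2 using h1
    obtain ⟨f, hf⟩ := exists_bound_fun hO
      (fun (t : Set (J p.1 p.2) × (J p.1 p.2 → O) × O) γ => (∀ ι, t.2.1 ι ≤ γ) ∧ t.2.2 ≤ γ)
      (fun γ => by
        have a1 : {D : J p.1 p.2 → O | ∀ ι, D ι ∈ Iic γ}.Countable :=
          Set.countable_pi fun _ => countable_Iic hO γ
        have a2 := (Set.countable_univ (α := Set (J p.1 p.2))).prod (a1.prod (countable_Iic hO γ))
        refine a2.mono ?_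
        intro t ht
        exact ⟨trivial, ht.1, ht.2⟩) h
    refine ⟨f, fun H D γ hD => ⟨fun ξ hξ hn x hx => ?_, fun hc ξ hξ => ?_⟩⟩
    · exact hh1 (H, D, ξ) hn x (hx.mono (hf (H, D, ξ) γ ⟨hD, hξ⟩).le)
    · exact (hh2 (H, D, γ) hc ξ hξ).trans (hf (H, D, γ) γ ⟨hD, le_rfl⟩)
  choose f hf using hf
  have hF : ∀ γ, ∃ y, ∀ p, f p γ < y := fun γ => by
    obtain ⟨y, hy⟩ := exists_gt_of_countable hO (countable_range fun p => f p γ)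
    exact ⟨y, fun p => hy _ ⟨p, rfl⟩⟩
  choose F hF using hF
  choose G hG1 hG2 using exists_closure hO F
  obtain ⟨a⟩ : Nonempty O := inferInstance
  obtain ⟨δ', hδ1, hδ2, hδ3⟩ := hg (fun γ => max (F γ) (G γ)) a
  obtain ⟨s, hs, hs2⟩ : ∃ s ∈ 𝒜, ¬ (s : Set O) ⊆ Iio δ' := by
    by_contra h
    push Not at h
    refine h𝒜 (((Set.countable_ofPred_finite_subset (hO δ')).preimage
      Finset.coe_injective).mono fun s hs => ?_)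
    exact And.intro s.finite_toSet (h s hs)
  let x : Fin s.card → O := s.orderEmbOfFin rfl
  have hx : (s : Set O) = range x := (Finset.range_orderEmbOfFin s rfl).symm
  have hγ : ∀ j, ∃ γ < δ', (x j < δ' → x j ≤ γ) ∧ (δ' ≤ x j → ∀ δ, γ < δ → δ < δ' →
      φ (x j) (nx δ' δ) = px δ' δ ∧ ∀ n < nx δ' δ, φ (x j) n < δ ∨ δ' ≤ φ (x j) n) := by
    intro j
    by_cases h : x j < δ'
    · exact ⟨x j, h, fun _ => le_rfl, fun h' => absurd h (not_lt.2 h')⟩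
    · obtain ⟨γ, h1, h2⟩ := hP δ' a hδ2 (x j) (not_lt.1 h)
      exact ⟨γ, h1, fun h' => (h h').elim, fun _ => h2⟩
  choose γj hγ1 hγ2 hγ3 using hγ
  obtain ⟨γ, hγ4, hγ5⟩ := exists_bound_finite (finite_range γj) hδ2 (by
    rintro _ ⟨j, rfl⟩; exact hγ1 j)
  have hγ6 : ∀ j, γj j < G γ := fun j => (hγ5 _ ⟨j, rfl⟩).trans_lt (hG1 γ)
  have hδ : G γ < δ' := (le_max_right _ _).trans_lt (hδ3 γ hγ4)
  let n0 := nx δ' (G γ)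
  let H : Set (J s.card n0) := {ι | δ' ≤ pts φ n0 x ι}
  let D : J s.card n0 → O := fun ι => if δ' ≤ pts φ n0 x ι then γ else pts φ n0 x ι
  have hD : ∀ ι, D ι < G γ := by
    intro ι
    by_cases h : δ' ≤ pts φ n0 x ι
    · simp only [D, if_pos h]; exact hG1 γ
    · simp only [D, if_neg h]
      rcases ι with j | ⟨n, j⟩
      · exact (hγ2 j (not_le.1 h)).trans_lt (hγ6 j)
      · by_cases h2 : x j < δ'
        · exact (hφ _ _).trans_lt ((hγ2 j h2).trans_lt (hγ6 j))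
        · exact (((hγ3 j (not_lt.1 h2)) _ (hγ6 j) hδ).2 n n.2).resolve_right h
  obtain ⟨γ2, hγ7, hγ8⟩ := exists_bound_finite (finite_range D) (hG1 γ) (by
    rintro _ ⟨j, rfl⟩; exact hD j)
  obtain ⟨hξ1, hξ2⟩ := hpx δ' (G γ) hδ
  have hReal : ∀ β, ∃ y, Mt 𝒜 φ H D (px δ' (G γ)) β y := by
    by_contra h
    have h1 : max γ2 (px δ' (G γ)) < δ' := max_lt (hγ7.trans hδ) hξ2
    refine (hf (s.card, n0) H D (max γ2 (px δ' (G γ)))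
      (fun ι => (hγ8 _ ⟨ι, rfl⟩).trans (le_max_left _ _))).1 _ (le_max_right _ _) h x
      ⟨⟨s, hs, hx⟩, fun ι hι => ?_, fun ι hι => ?_, fun j hj => ?_⟩
    · exact (((hF _ _).trans_le (le_max_left _ _)).trans (hδ3 _ h1)).le.trans hι
    · exact (if_neg hι).symm
    · exact (hγ3 j hj _ (hγ6 j) hδ).1
  refine ⟨s.card, n0, H, D, (hnx _ _).trans hδ1, ?_, fun hc => ?_⟩
  · obtain ⟨u, hu, hu2⟩ := not_subset.1 hs2
    rw [hx] at hu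
    obtain ⟨j, rfl⟩ := hu
    exact ⟨j, not_lt.1 hu2⟩
  · have h1 := (hf (s.card, n0) H D γ2 (fun ι => hγ8 _ ⟨ι, rfl⟩)).2 hc _ hReal
    exact absurd ((h1.trans (hF _ _)).trans (hG2 γ γ2 hγ7)) (not_lt.2 hξ1)

end Pool.Agent.P.MP_78a647_lc
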