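import Pool.Agent.Lib.Helper87.Codes

/-!
Coherent Suslin trees, and chain conditions inside a transitive model.
-/

namespace Pool.Agent.P.MP_78a647_lc

open Pool.Agent.Lib.Helper87

/-- The set of countable ordinals. -/
abbrev Om : Type := (Cardinal.aleph 1 : Cardinal.{0}).ord.ToType

/-- A function from a countable ordinal `ht` to the natural numbers. -/
structure Node where
  ht : Om
  val : Set.Iio ht → ℕ

/-- `t` extends `s` as a function. -/
def Extends (t s : Node) : Prop :=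
  ∃ h : s.ht ≤ t.ht, ∀ ξ : Set.Iio s.ht, t.val ⟨ξ.1, lt_of_lt_of_le ξ.2 h⟩ = s.val ξ

/-- The set of points of the common domain where `s` and `t` differ. -/
def diff (s t : Node) : Set Om :=
  {ξ | ∃ (h1 : ξ < s.ht) (h2 : ξ < t.ht), s.val ⟨ξ, h1⟩ ≠ t.val ⟨ξ, h2⟩}

/-- `S` is a coherent Suslin tree. -/
structure CoherentSuslin (S : Set Node) : Prop where
  down : ∀ t ∈ S, ∀ s, Extends t s → s ∈ S
  coherent : ∀ s ∈ S, ∀ t ∈ S, (diff s t).Finite
  modify : ∀ t ∈ S, ∀ s, s.ht = t.ht → (diff s t).Finite → s ∈ S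
  uncountable : ¬ S.Countable
  antichain : ∀ A ⊆ S, A.Pairwise (fun s t => ¬ Extends s t ∧ ¬ Extends t s) → A.Countable
  chain : ∀ C ⊆ S, IsChain Extends C → C.Countable

/-- The tree `S` as a notion of forcing. -/
def Cond (S : Set Node) : Type := S

/-- Stronger conditions are longer functions. -/
instance condOrder (S : Set Node) : Preorder (Cond S) where
  le t s := Extends t.1 s.1
  le_refl _ := ⟨le_rfl, fun _ => rfl⟩
  le_trans _ _ _ h1 h2 := ⟨h2.1.trans h1.1, fun ξ => (h1.2 ⟨ξ.1, _⟩).trans (h2.2 ξ)⟩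

/-- The relation given by a set of ordered pairs. -/
def rel (R x y : ZFSet.{0}) : Prop := ZFSet.pair x y ∈ R

/-- `R` partially orders `P`. -/
def IsPO (P R : ZFSet.{0}) : Prop :=
  (∀ x ∈ P, rel R x x) ∧ (∀ x ∈ P, ∀ y ∈ P, rel R x y → rel R y x → x = y) ∧
    ∀ x ∈ P, ∀ y ∈ P, ∀ z ∈ P, rel R x y → rel R y z → rel R x z

/-- The coordinatewise order on ordered pairs. -/
def prodRel (R R' x y : ZFSet.{0}) : Prop :=
  ∃ p q p' q', x = ZFSet.pair p q ∧ y = ZFSet.pair p' q' ∧ rel R p p' ∧ rel R' q q'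

/-- `(P, le)` is ccc in `M`: every antichain lying in `M` is countable in `M`. -/
def CCCIn (M : Set ZFSet.{0}) (P : ZFSet.{0}) (le : ZFSet.{0} → ZFSet.{0} → Prop) : Prop :=
  ∀ A ∈ M, A ⊆ P → (∀ x ∈ A, ∀ y ∈ A, x ≠ y → ¬ ∃ z ∈ P, le z x ∧ le z y) →
    CardLE M A ZFSet.omega

/-- In `M`, the product of any two ccc posets is ccc. -/
def PCCCIn (M : Set ZFSet.{0}) : Prop :=
  ∀ P ∈ M, ∀ R ∈ M, ∀ Q ∈ M, ∀ R' ∈ M, IsPO P R → IsPO Q R' → CCCIn M P (rel R) →
    CCCIn M Q (rel R') → CCCIn M (P.prod Q) (prodRel R R')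

end Pool.Agent.P.MP_78a647_lc
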