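import Pool.Agent.P.MP_78a647_lc.Rho
import Pool.Agent.P.MP_78a647_lc.FlipDefs

/-!
The parity set of a branch of a coherent Suslin tree, and the flip argument.
-/

namespace Pool.Agent.P.MP_78a647_lc

open Set

noncomputable def ev (t : Node) (η : Om) : ℕ := if h : η < t.ht then t.val ⟨η, h⟩ else 0

def mk' (α : Om) (f : Om → ℕ) : Node := ⟨α, fun ξ => f ξ.1⟩

theorem ev_of_lt (t : Node) {η : Om} (h : η < t.ht) : ev t η = t.val ⟨η, h⟩ := dif_pos h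

theorem ev_mk' {α : Om} (f : Om → ℕ) {η : Om} (h : η < α) : ev (mk' α f) η = f η :=
  ev_of_lt (mk' α f) h

theorem extends_iff {t s : Node} :
    Extends t s ↔ s.ht ≤ t.ht ∧ ∀ η < s.ht, ev t η = ev s η := by
  constructor
  · rintro ⟨h1, h2⟩
    refine ⟨h1, fun η hη => ?_⟩
    rw [ev_of_lt s hη, ev_of_lt t (hη.trans_le h1)]
    exact h2 ⟨η, hη⟩
  · rintro ⟨h1, h2⟩
    refine ⟨h1, fun ξ => ?_⟩
    have := h2 ξ.1 ξ.2
    rwa [ev_of_lt s ξ.2, ev_of_lt t (lt_of_lt_of_le ξ.2 h1)] at this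

theorem mem_diff_iff {s t : Node} {ξ : Om} :
    ξ ∈ diff s t ↔ ξ < s.ht ∧ ξ < t.ht ∧ ev s ξ ≠ ev t ξ := by
  constructor
  · rintro ⟨h1, h2, h3⟩
    exact ⟨h1, h2, by rwa [ev_of_lt s h1, ev_of_lt t h2]⟩
  · rintro ⟨h1, h2, h3⟩
    exact ⟨h1, h2, by rwa [ev_of_lt s h1, ev_of_lt t h2] at h3⟩

theorem Extends.eq_of_ht {t s : Node} (h : Extends t s) (h' : t.ht = s.ht) : t = s := by
  obtain ⟨a, f⟩ := t
  obtain ⟨b, g⟩ := s
  simp only at h'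
  subst h'
  obtain ⟨h1, h2⟩ := h
  congr 1
  funext ξ
  exact h2 ξ

variable {S : Set Node}

theorem exists_level (hS : CoherentSuslin S) (α : Om) : ∃ c ∈ S, c.ht = α := by
  obtain ⟨t, ht, h⟩ : ∃ t ∈ S, α ≤ t.ht := by
    by_contra h
    push Not at h
    refine hS.uncountable (((W1_Iio α).biUnion fun γ _ =>
      hS.antichain {t ∈ S | t.ht = γ} (fun t ht => ht.1) ?_).mono ?_)
    · intro s hs t ht hne
      exact ⟨fun h => hne (h.eq_of_ht (hs.2.trans ht.2.symm)),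
        fun h => hne (h.eq_of_ht (ht.2.trans hs.2.symm)).symm⟩
    · intro t ht
      exact mem_iUnion₂.2 ⟨t.ht, h t ht, ht, rfl⟩
  exact ⟨mk' α (ev t), hS.down t ht _ (extends_iff.2 ⟨h, fun η hη => (ev_mk' _ hη).symm⟩), rfl⟩

theorem cond_le_iff {t s : Cond S} :
    t ≤ s ↔ s.1.ht ≤ t.1.ht ∧ ∀ η < s.1.ht, ev t.1 η = ev s.1 η := extends_iff

theorem exists_extend (hS : CoherentSuslin S) (t : Cond S) (α : Om) :
    ∃ u : Cond S, u ≤ t ∧ α ≤ u.1.ht := by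
  classical
  obtain ⟨c, hc, h⟩ := exists_level hS (max α t.1.ht)
  have h1 : t.1.ht ≤ c.ht := h ▸ le_max_right _ _
  refine ⟨⟨mk' c.ht fun η => if η < t.1.ht then ev t.1 η else ev c η,
    hS.modify c hc _ rfl ((hS.coherent _ t.2 c hc).subset fun ξ hξ => ?_)⟩,
    cond_le_iff.2 ⟨h1, fun η hη => ?_⟩, h ▸ le_max_left _ _⟩
  · obtain ⟨a1, a2, a3⟩ := mem_diff_iff.1 hξ
    rw [ev_mk' _ a2] at a3
    by_cases h2 : ξ < t.1.ht
    · rw [if_pos h2] at a3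
      exact mem_diff_iff.2 ⟨h2, a2, a3⟩
    · rw [if_neg h2] at a3
      exact (a3 rfl).elim
  · exact (ev_mk' _ (hη.trans_le h1)).trans (if_pos hη)

theorem cond_ccc (hS : CoherentSuslin S) : Pool.Agent.Lib.Helper87.CCC (Cond S) := by
  intro A hA
  refine countable_of_injective_of_countable_image (f := fun t : Cond S => t.1)
    Subtype.val_injective.injOn (hS.antichain _ ?_ ?_)
  · rintro _ ⟨t, -, rfl⟩
    exact t.2
  · rintro _ ⟨s, hs, rfl⟩ _ ⟨t, ht, rfl⟩ hne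
    have := hA hs ht fun h => hne (by rw [h])
    exact ⟨fun h => this ⟨s, le_rfl, h⟩, fun h => this ⟨t, h, le_rfl⟩⟩

theorem cond_compat (hS : CoherentSuslin S) {Y : Type} (F : Y → Cond S) {T : Set Y}
    (hT : ¬ T.Countable) : ∃ a ∈ T, ∃ b ∈ T, a ≠ b ∧ ∃ u, u ≤ F a ∧ u ≤ F b := by
  by_contra h
  push Not at h
  refine hT (countable_of_injective_of_countable_image (f := F) (fun p hp q hq h' => ?_)
    (cond_ccc hS _ ?_))
  · by_contra hne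
    exact h p hp q hq hne (F q) h'.ge le_rfl
  · rintro _ ⟨p, hp, rfl⟩ _ ⟨q, hq, rfl⟩ hne ⟨u, h1, h2⟩
    exact h p hp q hq (fun h' => hne (by rw [h'])) u h1 h2

def fl (n : ℕ) : ℕ := Nat.bit (!n.bodd) n.div2

theorem bodd_fl (n : ℕ) : (fl n).bodd = !n.bodd := Nat.bodd_bit _ _

theorem fl_fl (n : ℕ) : fl (fl n) = n := by
  rw [fl, bodd_fl, fl, Nat.div2_bit, Bool.not_not, Nat.bit_bodd_div2]

open Classical in
noncomputable def flip (hS : CoherentSuslin S) (η0 : Om) (t : Cond S) : Cond S :=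
  ⟨mk' t.1.ht fun η => if η = η0 then fl (ev t.1 η) else ev t.1 η,
    hS.modify _ t.2 _ rfl ((finite_singleton η0).subset fun ξ hξ => by
      obtain ⟨-, a2, a3⟩ := mem_diff_iff.1 hξ
      rw [ev_mk' _ a2] at a3
      by_contra h
      exact a3 (if_neg h))⟩

open Classical in
theorem ev_flip (hS : CoherentSuslin S) (η0 : Om) (t : Cond S) {η : Om} (h : η < t.1.ht) :
    ev (flip hS η0 t).1 η = if η = η0 then fl (ev t.1 η) else ev t.1 η := ev_mk' _ h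

theorem flip_mono (hS : CoherentSuslin S) (η0 : Om) {u t : Cond S} (h : u ≤ t) :
    flip hS η0 u ≤ flip hS η0 t := by
  obtain ⟨h1, h2⟩ := cond_le_iff.1 h
  refine cond_le_iff.2 ⟨h1, fun η hη => ?_⟩
  rw [ev_flip hS η0 t hη, ev_flip hS η0 u (lt_of_lt_of_le hη h1), h2 η hη]

theorem flip_flip (hS : CoherentSuslin S) (η0 : Om) (t : Cond S) :
    flip hS η0 (flip hS η0 t) ≤ t := by
  refine cond_le_iff.2 ⟨le_rfl, fun η hη => ?_⟩
  rw [ev_flip hS η0 (flip hS η0 t) hη, ev_flip hS η0 t hη]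
  split_ifs
  · exact fl_fl _
  · rfl

theorem flip_le (hS : CoherentSuslin S) {t s : Cond S} (h : t ≤ s) : flip hS s.1.ht t ≤ s := by
  obtain ⟨h1, h2⟩ := cond_le_iff.1 h
  refine cond_le_iff.2 ⟨h1, fun η hη => ?_⟩
  rw [ev_flip hS _ t (hη.trans_le h1), if_neg hη.ne, h2 η hη]

noncomputable def par (c : Om → Node) (t : Node) (ξ : Om) : Bool :=
  ({η | η < ξ ∧ (ev t η).bodd ≠ (ev (c ξ) η).bodd}.ncard).bodd

theorem par_ext (c : Om → Node) {u t : Cond S} (h : u ≤ t) {ξ : Om} (hξ : ξ ≤ t.1.ht) :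
    par c u.1 ξ = par c t.1 ξ := by
  unfold par
  congr 2
  ext η
  refine and_congr_right fun hη => ?_
  rw [(cond_le_iff.1 h).2 η (hη.trans_le hξ)]

theorem par_flip (hS : CoherentSuslin S) (c : Om → Node) (hc : ∀ α, c α ∈ S ∧ (c α).ht = α)
    (t : Cond S) {η0 ξ : Om} (h1 : η0 < ξ) (h2 : ξ ≤ t.1.ht) :
    par c (flip hS η0 t).1 ξ = !par c t.1 ξ := by
  have hfin : ∀ t : Cond S, ξ ≤ t.1.ht →
      {η | η < ξ ∧ (ev t.1 η).bodd ≠ (ev (c ξ) η).bodd}.Finite := fun t h =>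
    (hS.coherent _ t.2 _ (hc ξ).1).subset fun η hη =>
      mem_diff_iff.2 ⟨hη.1.trans_le h, (hc ξ).2.symm ▸ hη.1, fun e => hη.2 (by rw [e])⟩
  have e0 : (ev (flip hS η0 t).1 η0).bodd = !(ev t.1 η0).bodd := by
    rw [ev_flip hS η0 t (h1.trans_le h2), if_pos rfl, bodd_fl]
  have e1 : ∀ η < ξ, η ≠ η0 → ev (flip hS η0 t).1 η = ev t.1 η := fun η a1 a2 => by
    rw [ev_flip hS η0 t (a1.trans_le h2), if_neg a2]
  unfold par
  by_cases h : (ev t.1 η0).bodd = (ev (c ξ) η0).bodd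
  · have : {η | η < ξ ∧ (ev (flip hS η0 t).1 η).bodd ≠ (ev (c ξ) η).bodd} =
        insert η0 {η | η < ξ ∧ (ev t.1 η).bodd ≠ (ev (c ξ) η).bodd} := by
      ext η
      by_cases h3 : η = η0
      · subst h3
        refine ⟨fun _ => Or.inl rfl, fun _ => ⟨h1, ?_⟩⟩
        rw [e0, h]
        exact Bool.not_ne_self _
      · refine ⟨fun a => Or.inr ⟨a.1, e1 η a.1 h3 ▸ a.2⟩, fun a => ?_⟩
        have a := a.resolve_left h3
        exact ⟨a.1, (e1 η a.1 h3).symm ▸ a.2⟩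
    rw [this, ncard_insert_of_notMem (fun a => a.2 h) (hfin t h2), Nat.bodd_succ]
  · have h' : (ev (flip hS η0 t).1 η0).bodd = (ev (c ξ) η0).bodd := by
      rw [e0]
      revert h
      cases (ev t.1 η0).bodd <;> cases (ev (c ξ) η0).bodd <;> simp
    have : {η | η < ξ ∧ (ev t.1 η).bodd ≠ (ev (c ξ) η).bodd} =
        insert η0 {η | η < ξ ∧ (ev (flip hS η0 t).1 η).bodd ≠ (ev (c ξ) η).bodd} := by
      ext η
      by_cases h3 : η = η0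
      · subst h3
        exact ⟨fun _ => Or.inl rfl, fun _ => ⟨h1, h⟩⟩
      · refine ⟨fun a => Or.inr ⟨a.1, (e1 η a.1 h3).symm ▸ a.2⟩, fun a => ?_⟩
        have a := a.resolve_left h3
        exact ⟨a.1, e1 η a.1 h3 ▸ a.2⟩
    rw [this, ncard_insert_of_notMem (fun a => a.2 h') (hfin (flip hS η0 t) h2), Nat.bodd_succ,
      Bool.not_not]

def IsD (ρ : Om → Om → ℕ) (α β ξ : Om) : Prop :=
  ξ ≤ α ∧ ξ ≤ β ∧ ρ α ξ ≠ ρ β ξ ∧ ∀ η < ξ, ρ α η = ρ β η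

theorem IsD.unique {ρ : Om → Om → ℕ} {α β ξ ζ : Om} (h : IsD ρ α β ξ) (h' : IsD ρ α β ζ) :
    ξ = ζ := by
  rcases lt_trichotomy ξ ζ with h1 | h1 | h1
  · exact (h.2.2.1 (h'.2.2.2 ξ h1)).elim
  · exact h1
  · exact (h'.2.2.1 (h.2.2.2 ζ h1)).elim

def KF (ρ : Om → Om → ℕ) (c : Om → Node) (i : Bool) (t : Node) (α β : Om) : Prop :=
  ∃ ξ, IsD ρ α β ξ ∧ ξ ≤ t.ht ∧ par c t ξ = i

theorem KF.symm {ρ : Om → Om → ℕ} {c : Om → Node} {i : Bool} {t : Node} {α β : Om}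
    (h : KF ρ c i t α β) : KF ρ c i t β α := by
  obtain ⟨ξ, ⟨h1, h2, h3, h4⟩, h5⟩ := h
  exact ⟨ξ, ⟨h2, h1, h3.symm, fun η hη => (h4 η hη).symm⟩, h5⟩

theorem KF.mono {ρ : Om → Om → ℕ} {c : Om → Node} {i : Bool} {t u : Cond S} {α β : Om}
    (h : KF ρ c i t.1 α β) (hu : u ≤ t) : KF ρ c i u.1 α β := by
  obtain ⟨ξ, h1, h2, h3⟩ := h
  exact ⟨ξ, h1, h2.trans hu.1, (par_ext c hu h2).trans h3⟩

theorem KF.excl {ρ : Om → Om → ℕ} {c : Om → Node} {t : Node} {α β : Om}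
    (h : KF ρ c true t α β) (h' : KF ρ c false t α β) : False := by
  obtain ⟨ξ, h1, -, h3⟩ := h
  obtain ⟨ζ, h4, -, h6⟩ := h'
  rw [← h1.unique h4, h3] at h6
  exact Bool.noConfusion h6

theorem exists_dense_below (hS : CoherentSuslin S) (t : Om → Cond S) (good : Om → Om → Prop)
    (hg : ∀ γ γ' y, γ' ≤ γ → good γ y → good γ' y) (hg2 : ∀ γ, ∃ y, good γ y) :
    ∃ s : Cond S, ∀ u ≤ s, ∀ γ, ∃ y, good γ y ∧ ∃ v, v ≤ u ∧ v ≤ t y := by
  by_contra h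
  push Not at h
  obtain ⟨B, h1, h2, -, h3⟩ := (cond_ccc hS).exists_antichain
    {u | ∃ γ, ∀ y, good γ y → ∀ v, v ≤ u → ¬ v ≤ t y}
  have := h2.to_subtype
  choose γ hγ using fun u : B => h1 u.2
  obtain ⟨δ, hδ⟩ := exists_gt_of_countable W1_Iio (countable_range γ)
  obtain ⟨y, hy⟩ := hg2 δ
  obtain ⟨u, h4, h5⟩ := h (t y)
  obtain ⟨q, h6, r, h7, h8⟩ := h3 u h5
  exact hγ ⟨q, h6⟩ y (hg _ _ _ (hδ _ ⟨_, rfl⟩).le hy) r h8 (h7.trans h4)

theorem flip_ccc (hS : CoherentSuslin S) (c : Om → Node) (hc : ∀ α, c α ∈ S ∧ (c α).ht = α)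
    (ρ : Om → Om → ℕ) (h1 : ∀ β n, {α | α ≤ β ∧ ρ β α ≤ n}.Finite)
    (h2 : ∀ β γ, γ ≤ β → {α | α ≤ γ ∧ ρ β α ≠ ρ γ α}.Finite) (i : Bool)
    (t : Om → Cond S) (p : Om → Finset Om)
    (hp : ∀ y, (p y : Set Om).Pairwise (KF ρ c i (t y).1)) :
    ∃ y y', y ≠ y' ∧ ∃ u, u ≤ t y ∧ u ≤ t y' ∧
      ((p y : Set Om) ∪ p y').Pairwise (KF ρ c i u.1) := by
  classical
  obtain ⟨n, hn⟩ := exists_uncountable_fibre (S := (univ : Set Om)) not_countable_univ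
    fun a => (p a).card
  obtain ⟨R, T, -, hT, hR1, hR2⟩ := delta_system n p _ hn fun a ha => ha.2
  obtain ⟨k, hk⟩ := exists_uncountable_fibre hT fun a => (p a \ R).card
  obtain ⟨e, he, heT⟩ := W1_inj hk
  let x : Om → Fin k → Om := fun a j => (Finset.equivFinOfCardEq (heT a).2).symm j
  have hx1 : ∀ a j, x a j ∈ p (e a) \ R := fun a j =>
    ((Finset.equivFinOfCardEq (heT a).2).symm j).2
  have hx2 : ∀ a, ∀ y ∈ p (e a), y ∉ R → ∃ j, x a j = y := fun a y hy hy' =>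
    ⟨Finset.equivFinOfCardEq (heT a).2 ⟨y, Finset.mem_sdiff.2 ⟨hy, hy'⟩⟩, by simp [x]⟩
  have hx3 : ∀ a b, a ≠ b → ∀ j l, x b l ≠ x a j := by
    intro a b hab j l h
    have h1 := Finset.mem_sdiff.1 (hx1 a j)
    have h2 := Finset.mem_sdiff.1 (hx1 b l)
    exact h1.2 (hR2 _ (heT a).1 _ (heT b).1 (he.ne hab) _ h1.1 (h ▸ h2.1))
  obtain ⟨s, hs⟩ := exists_dense_below hS (fun y => t (e y)) (fun γ y => γ ≤ y ∧ ∀ j, γ ≤ x y j)
    (fun γ γ' y h a => ⟨h.trans a.1, fun j => h.trans (a.2 j)⟩) (by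
      intro γ
      have a1 : (Iio γ ∪ ⋃ j, ⋃ v ∈ Iio γ, {y | x y j = v}).Countable :=
        (W1_Iio γ).union (countable_iUnion fun j => (W1_Iio γ).biUnion fun v _ =>
          Subsingleton.countable fun a ha b hb => by
            by_contra h
            exact hx3 a b h j j (hb.trans ha.symm))
      obtain ⟨y, hy⟩ := exists_gt_of_countable W1_Iio a1
      refine ⟨y, not_lt.1 fun h => lt_irrefl _ (hy y (Or.inl h)), fun j => not_lt.1 fun h =>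
        lt_irrefl _ (hy y (Or.inr (mem_iUnion.2 ⟨j, mem_iUnion₂.2 ⟨_, h, rfl⟩⟩)))⟩)
  have h3 : ∀ γ, ∃ (y : Bool → Om) (v : Cond S), (∀ b, γ ≤ y b ∧ ∀ j, γ ≤ x (y b) j) ∧
      v ≤ t (e (y true)) ∧ flip hS s.1.ht v ≤ t (e (y false)) := by
    intro γ
    obtain ⟨y1, a1, u1, a2, a3⟩ := hs s le_rfl γ
    obtain ⟨y2, a4, u2, a5, a6⟩ := hs _ (flip_le hS a2) γ
    refine ⟨fun b => cond b y2 y1, u2, fun b => ?_, a6,
      ((flip_mono hS _ a5).trans (flip_flip hS _ _)).trans a3⟩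
    cases b
    · exact a1
    · exact a4
  choose y v hy hv1 hv2 using h3
  obtain ⟨Γ, hΓ, hΓ2⟩ := sync W1_Iio ρ h1 h2 (J := Bool × Option (Fin k))
    (fun γ q => q.2.elim (y γ q.1) (x (y γ q.1))) (by
      rintro γ ⟨b, _ | j⟩
      · exact (hy γ b).1
      · exact (hy γ b).2 j) s.1.ht
  obtain ⟨γ, hγ, δ, hδ, hne, w0, a1, a2⟩ := cond_compat hS v hΓ
  obtain ⟨ξ, b1, b2, b3, b4, b5⟩ := hΓ2 γ hγ δ hδ hne
  obtain ⟨w, a3, a4⟩ := exists_extend hS w0 ξ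
  obtain ⟨b, u, c1, c2, c3, c4⟩ : ∃ (b : Bool) (u : Cond S), u ≤ t (e (y γ b)) ∧
      u ≤ t (e (y δ b)) ∧ ξ ≤ u.1.ht ∧ par c u.1 ξ = i := by
    by_cases h : par c w.1 ξ = i
    · exact ⟨true, w, (a3.trans a1).trans (hv1 γ), (a3.trans a2).trans (hv1 δ), a4, h⟩
    · refine ⟨false, flip hS s.1.ht w, (flip_mono hS _ (a3.trans a1)).trans (hv2 γ),
        (flip_mono hS _ (a3.trans a2)).trans (hv2 δ), a4, ?_⟩
      rw [par_flip hS c hc w b1 a4]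
      revert h
      cases par c w.1 ξ <;> cases i <;> simp
  have d1 : y γ b ≠ y δ b := fun h => b5 (b, none) (b, none) (by simp [h])
  have p1 : (p (e (y γ b)) : Set Om).Pairwise (KF ρ c i u.1) :=
    (hp _).imp fun _ _ h => h.mono c1
  have p2 : (p (e (y δ b)) : Set Om).Pairwise (KF ρ c i u.1) :=
    (hp _).imp fun _ _ h => h.mono c2
  have cross : ∀ α ∈ p (e (y γ b)), ∀ β ∈ p (e (y δ b)), α ≠ β → KF ρ c i u.1 α β := by
    intro α hα β hβ hαβ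
    by_cases r1 : α ∈ R
    · exact p2 (hR1 _ (heT _).1 r1) hβ hαβ
    by_cases r2 : β ∈ R
    · exact p1 hα (hR1 _ (heT _).1 r2) hαβ
    obtain ⟨j, rfl⟩ := hx2 _ α hα r1
    obtain ⟨l, rfl⟩ := hx2 _ β hβ r2
    have f1 : ∀ η < ξ, ρ (x (y γ b) l) η = ρ (x (y δ b) l) η := b4 (b, some l)
    have f2 : ρ (x (y γ b) j) ξ ≠ ρ (x (y δ b) l) ξ := b5 (b, some j) (b, some l)
    have f3 : ξ ≤ x (y δ b) l := b3.trans ((hy δ b).2 l)
    by_cases h : ∀ η < ξ, ρ (x (y γ b) j) η = ρ (x (y γ b) l) η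
    · exact ⟨ξ, ⟨b2.trans ((hy γ b).2 j), f3, f2, fun η hη => (h η hη).trans (f1 η hη)⟩, c3, c4⟩
    · push Not at h
      obtain ⟨η, g1, g2⟩ := h
      obtain ⟨ζ, ⟨g3, -, g5, g6⟩, g7⟩ := p1 hα (Finset.mem_sdiff.1 (hx1 _ l)).1
        (fun h => g2 (by rw [h]))
      have g8 : ζ < ξ := (not_lt.1 fun h => g2 (g6 η h)).trans_lt g1
      exact ⟨ζ, ⟨g3, g8.le.trans f3, f1 ζ g8 ▸ g5, fun η hη =>
        (g6 η hη).trans (f1 η (hη.trans g8))⟩, g7⟩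
  refine ⟨e (y γ b), e (y δ b), he.ne d1, u, c1, c2, ?_⟩
  rintro α (hα | hα) β (hβ | hβ) hαβ
  · exact p1 hα hβ hαβ
  · exact cross α hα β hβ hαβ
  · exact (cross β hβ α hα hαβ.symm).symm
  · exact p2 hα hβ hαβ

end Pool.Agent.P.MP_78a647_lc
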