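import Pool.Agent.P.MP_78a647_lc.Flip

/-!
The two posets in the extension by a coherent Suslin tree.
-/

namespace Pool.Agent.P.MP_78a647_lc

open Set Filter Pool.Agent.Lib.Helper87 Pool.Agent.Lib.Helper87.Coded FirstOrder

section
variable {S : Set Node} (ρ : Om → Om → ℕ) (c : Om → Node) (en : Finset Om → Om)

def Clq (i : Bool) (p : Finset Om) (t : Cond S) : Prop := (p : Set Om).Pairwise (KF ρ c i t.1)

theorem Clq.mono {i : Bool} {p : Finset Om} (t u : Cond S) (hu : u ≤ t) (h : Clq ρ c i p t) :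
    Clq ρ c i p u := Set.Pairwise.imp h fun _ _ h => h.mono hu

noncomputable def PP (i : Bool) (w : World (Cond S)) : ZFSet.{0} :=
  ZFSet.range fun p : {p : Finset Om // w.In p ∧ w.Frc (Clq ρ c i p)} => w.ord (en p.1)

noncomputable def RR (w : World (Cond S)) : ZFSet.{0} :=
  ZFSet.range fun p : {p : Finset Om × Finset Om // w.In p ∧ p.2 ⊆ p.1} =>
    ZFSet.pair (w.ord (en p.1.1)) (w.ord (en p.1.2))

noncomputable def AA (w : World (Cond S)) : ZFSet.{0} :=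
  ZFSet.range fun a : {a : Om // w.In a} => ZFSet.pair (w.ord (en {a.1})) (w.ord (en {a.1}))

theorem mem_PP {i : Bool} {w : World (Cond S)} {z : ZFSet.{0}} :
    z ∈ PP ρ c en i w ↔ ∃ p, w.In p ∧ w.Frc (Clq ρ c i p) ∧ w.ord (en p) = z := by
  simp [PP, and_assoc]

theorem mem_RR {w : World (Cond S)} {z : ZFSet.{0}} :
    z ∈ RR en w ↔ ∃ p : Finset Om × Finset Om, w.In p ∧ p.2 ⊆ p.1 ∧
      ZFSet.pair (w.ord (en p.1)) (w.ord (en p.2)) = z := by
  simp only [RR, ZFSet.mem_range, Subtype.exists, exists_prop, and_assoc]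

theorem mem_AA {w : World (Cond S)} {z : ZFSet.{0}} :
    z ∈ AA en w ↔ ∃ a : Om, w.In a ∧ True ∧ ZFSet.pair (w.ord (en {a})) (w.ord (en {a})) = z := by
  simp [AA]

theorem named_PP (i : Bool) : Named (PP (S := S) ρ c en i) :=
  named_of_mem_iff (x := fun p w => w.ord (en p)) (fun p => named_ord (en p))
    (fun p => measurable_frc (Clq.mono ρ c)) (Eventually.of_forall fun _ _ => mem_PP ρ c en)

theorem named_RR : Named (RR (S := S) en) :=
  named_of_mem_iff (x := fun (p : Finset Om × Finset Om) w =>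
      ZFSet.pair (w.ord (en p.1)) (w.ord (en p.2)))
    (fun p => (named_ord _).pair (named_ord _)) (Φ := fun p _ => p.2 ⊆ p.1)
    (fun _ => measurable_const) (Eventually.of_forall fun _ _ => mem_RR en)

theorem named_AA : Named (AA (S := S) en) :=
  named_of_mem_iff (x := fun (a : Om) w => ZFSet.pair (w.ord (en {a})) (w.ord (en {a})))
    (fun _ => (named_ord _).pair (named_ord _)) (Φ := fun _ _ => True)
    (fun _ => measurable_const) (Eventually.of_forall fun _ _ => mem_AA en)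

variable (hen : Function.Injective en)
include hen

theorem ev_ord_inj : ∀ᶠ w in gen (Cond S), ∀ p q : Finset Om, w.In p → w.In q →
    (w.ord (en p) = w.ord (en q) ↔ p = q) := by
  filter_upwards [ev_fun en] with w hw p q hp hq
  rw [w.ord_inj (hw p hp) (hw q hq), hen.eq_iff]

theorem ev_rel : ∀ᶠ w in gen (Cond S), ∀ p q : Finset Om, w.In p → w.In q →
    (rel (RR en w) (w.ord (en p)) (w.ord (en q)) ↔ q ⊆ p) := by
  filter_upwards [ev_ord_inj en hen, ev_in_prod (Finset Om) (Finset Om)] with w h1 h2 p q hp hq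
  rw [rel, mem_RR]
  constructor
  · rintro ⟨r, a1, a2, a3⟩
    rw [ZFSet.pair_inj, h1 _ _ ((h2 r).1 a1).1 hp, h1 _ _ ((h2 r).1 a1).2 hq] at a3
    rwa [a3.1, a3.2] at a2
  · exact fun h => ⟨(p, q), (h2 (p, q)).2 ⟨hp, hq⟩, h, rfl⟩

theorem ev_isPO (i : Bool) : ∀ᶠ w in gen (Cond S), IsPO (PP ρ c en i w) (RR en w) := by
  filter_upwards [ev_rel en hen] with w h
  refine ⟨fun x hx => ?_, fun x hx y hy h1 h2 => ?_, fun x hx y hy z hz h1 h2 => ?_⟩
  · obtain ⟨p, a, -, rfl⟩ := (mem_PP ρ c en).1 hx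
    exact (h p p a a).2 Finset.Subset.rfl
  · obtain ⟨p, a, -, rfl⟩ := (mem_PP ρ c en).1 hx
    obtain ⟨q, b, -, rfl⟩ := (mem_PP ρ c en).1 hy
    rw [Finset.Subset.antisymm ((h p q a b).1 h1) ((h q p b a).1 h2)]
  · obtain ⟨p, a, -, rfl⟩ := (mem_PP ρ c en).1 hx
    obtain ⟨q, b, -, rfl⟩ := (mem_PP ρ c en).1 hy
    obtain ⟨r, d, -, rfl⟩ := (mem_PP ρ c en).1 hz
    exact (h p r a d).2 (((h q r b d).1 h2).trans ((h p q a b).1 h1))

theorem ev_cccIn (hS : CoherentSuslin S) (hc : ∀ α, c α ∈ S ∧ (c α).ht = α)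
    (h1 : ∀ β n, {α | α ≤ β ∧ ρ β α ≤ n}.Finite)
    (h2 : ∀ β γ, γ ≤ β → {α | α ≤ γ ∧ ρ β α ≠ ρ γ α}.Finite) (i : Bool) :
    ∀ᶠ w in gen (Cond S), CCCIn w.M (PP ρ c en i w) (rel (RR en w)) := by
  classical
  refine ev_all_named (Φ := fun A w => A ⊆ PP ρ c en i w → (∀ x ∈ A, ∀ y ∈ A, x ≠ y →
    ¬ ∃ z ∈ PP ρ c en i w, rel (RR en w) z x ∧ rel (RR en w) z y) → CardLE w.M A ZFSet.omega)
    fun A hA => ?_
  have hm : ∀ p : Finset Om, Measurable fun w => w.ord (en p) ∈ A w := fun p =>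
    (named_ord _).measurable_mem hA
  let Φ : World (Cond S) → Prop := fun w => ∀ p : Finset Om, w.In p → ∀ q : Finset Om, w.In q →
    w.ord (en p) ∈ A w → w.ord (en q) ∈ A w → p ≠ q → ¬ w.Frc (Clq ρ c i (p ∪ q))
  have hΦ : Measurable Φ := measurable_all_in fun p => measurable_all_in fun q =>
    (hm p).imp ((hm q).imp (measurable_const.imp (measurable_frc (Clq.mono ρ c)).not))
  let B : Cond S → Set (Finset Om) := fun t0 =>
    {p | ∃ t ≤ t0, Sem t (fun w => w.ord (en p) ∈ A w) ∧ Clq ρ c i p t}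
  have hB : ∀ t0, Sem t0 Φ → (B t0).Countable := by
    intro t0 h0
    by_contra h
    obtain ⟨e, he, heB⟩ := W1_inj h
    choose t a1 a2 a3 using heB
    obtain ⟨y, y', b1, u, b2, b3, b4⟩ := flip_ccc hS c hc ρ h1 h2 i t e a3
    obtain ⟨w, b5, ⟨⟨b6, b7⟩, b8⟩, b9, b10⟩ := (((h0.mono (b2.trans (a1 y))).and
      ((a2 y).mono b2)).and ((a2 y').mono b3)).exists ((ev_const (e y)).and (ev_const (e y')))
    refine b6 _ b9 _ b10 b7 b8 (he.ne b1) ⟨u, b5, ?_⟩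
    rw [Clq, Finset.coe_union]
    exact b4
  have hB2 : ∀ t0, ∃ g : Finset Om → ℕ, Sem t0 Φ → InjOn g (B t0) := by
    intro t0
    by_cases h : Sem t0 Φ
    · obtain ⟨g, hg⟩ := countable_iff_exists_injOn.1 (hB t0 h)
      exact ⟨g, fun _ => hg⟩
    · exact ⟨fun _ => 0, fun h' => (h h').elim⟩
  choose g hg using hB2
  filter_upwards [ev_generic, ev_forced hΦ, ev_all fun p => ev_forced (hm p), ev_rel en hen,
    ev_ord_inj en hen, ev_fun₂ fun p q : Finset Om => p ∪ q,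
    ev_all fun t0 => ev_cardLE (a := fun p w => w.ord (en p))
      (b := fun p _ => code (g t0 p)) (fun p => named_ord _) (fun p => named_nat _)
      (Φ := fun p w => w.ord (en p) ∈ A w ∧ p ∈ B t0) (fun p => (hm p).and measurable_const)]
    with w a1 a2 a3 a4 a5 a6 a7 b1 b2
  obtain ⟨t0, c1, c2⟩ := a2 (by
    intro p hp q hq d1 d2 d3 d4
    exact b2 _ d1 _ d2 (fun h => d3 ((a5 p q hp hq).1 h)) ⟨_, (mem_PP ρ c en).2
      ⟨p ∪ q, a6 p hp q hq, d4, rfl⟩, (a4 _ _ (a6 p hp q hq) hp).2 Finset.subset_union_left,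
      (a4 _ _ (a6 p hp q hq) hq).2 Finset.subset_union_right⟩)
  refine a7 t0 (a1.mem _ c1) _ _ (fun z hz => ?_)
    (fun p _ h => ⟨h.1, mem_omega_iff.2 ⟨_, rfl⟩⟩) fun p q hp hq d1 d2 => ?_
  · obtain ⟨p, d1, ⟨t1, d2, d3⟩, rfl⟩ := (mem_PP ρ c en).1 (b1 hz)
    obtain ⟨t2, d4, d5⟩ := a3 p d1 hz
    obtain ⟨t3, d6, d7, d8⟩ := a1.dir _ d2 _ d4
    obtain ⟨t4, -, d9, d10⟩ := a1.dir _ d6 _ c1
    exact ⟨p, d1, ⟨hz, t4, d10, d5.mono (d9.trans d8), d3.mono ρ c _ _ (d9.trans d7)⟩, rfl⟩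
  · rw [a5 p q hp hq, code_inj]
    exact ⟨fun h => by rw [h], fun h => hg t0 c2 d1.2 d2.2 h⟩

theorem ev_not_cccIn (hS : CoherentSuslin S) :
    ∀ᶠ w in gen (Cond S), ¬ CCCIn w.M ((PP ρ c en true w).prod (PP ρ c en false w))
      (prodRel (RR en w) (RR en w)) := by
  have key : ∀ᶠ w in gen (Cond S), ∀ f ∈ w.M, ¬ (ZFSet.IsFunc (AA en w) ZFSet.omega f ∧
      ∀ x x' y, ZFSet.pair x y ∈ f → ZFSet.pair x' y ∈ f → x = x') := by
    refine ev_all_named (Φ := fun f w => ¬ (ZFSet.IsFunc (AA en w) ZFSet.omega f ∧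
      ∀ x x' y, ZFSet.pair x y ∈ f → ZFSet.pair x' y ∈ f → x = x')) fun f hf => ?_
    choose T hT1 hT2 using fun n : ℕ => (cond_ccc hS).cover (T := Om)
      (Φ := fun a w => ZFSet.pair (ZFSet.pair (w.ord (en {a})) (w.ord (en {a}))) (code n) ∈ f w)
      fun a => (((named_ord _).pair (named_ord _)).pair (named_nat n)).measurable_mem hf
    obtain ⟨a, ha⟩ := exists_gt_of_countable W1_Iio (countable_iUnion hT1)
    filter_upwards [ev_call hT2, ev_const a, ev_ord_inj en hen,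
      ev_fun fun a : Om => ({a} : Finset Om)] with w a1 a2 a3 a4 ⟨b1, b2⟩
    obtain ⟨y, c1, -⟩ := b1.2 _ ((mem_AA en).2 ⟨a, a2, trivial, rfl⟩)
    obtain ⟨n, rfl⟩ := mem_omega_iff.1 (ZFSet.pair_mem_prod.1 (b1.1 c1)).2
    refine lt_irrefl a (ha a (mem_iUnion.2 ⟨n, a1 n a a2 c1 fun b hb h => ?_⟩))
    have := b2 _ _ _ h c1
    rw [ZFSet.pair_inj, a3 _ _ (a4 b hb) (a4 a a2)] at this
    exact Finset.singleton_injective this.1
  filter_upwards [key, (named_AA en).ev_mem, ev_generic, ev_nonempty, ev_rel en hen,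
    ev_fun fun a : Om => ({a} : Finset Om)] with w a1 a2 a3 ⟨t0, a4⟩ a5 a6 h
  obtain ⟨f, b1, b2⟩ := h _ a2 (by
    intro z hz
    obtain ⟨a, b1, -, rfl⟩ := (mem_AA en).1 hz
    exact ZFSet.pair_mem_prod.2 ⟨(mem_PP ρ c en).2 ⟨_, a6 a b1, ⟨t0, a4, by simp [Clq]⟩, rfl⟩,
      (mem_PP ρ c en).2 ⟨_, a6 a b1, ⟨t0, a4, by simp [Clq]⟩, rfl⟩⟩) (by
    rintro x hx y hy hxy ⟨z, hz, ⟨p1, q1, p2, q2, e1, e2, c1, c2⟩, p3, q3, p4, q4, e3, e4, c3, c4⟩
    obtain ⟨a, b1, -, rfl⟩ := (mem_AA en).1 hx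
    obtain ⟨b, b2, -, rfl⟩ := (mem_AA en).1 hy
    have hab : a ≠ b := fun h => hxy (by rw [h])
    subst e1
    rw [ZFSet.pair_inj] at e2 e3 e4
    obtain ⟨rfl, rfl⟩ := e2
    obtain ⟨rfl, rfl⟩ := e3
    obtain ⟨rfl, rfl⟩ := e4
    obtain ⟨d1, d2⟩ := ZFSet.pair_mem_prod.1 hz
    obtain ⟨p, d3, ⟨t1, d4, d5⟩, rfl⟩ := (mem_PP ρ c en).1 d1
    obtain ⟨q, d6, ⟨t2, d7, d8⟩, rfl⟩ := (mem_PP ρ c en).1 d2
    obtain ⟨t3, -, d9, d10⟩ := a3.dir _ d4 _ d7
    rw [a5 _ _ d3 (a6 _ b1), Finset.singleton_subset_iff] at c1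
    rw [a5 _ _ d6 (a6 _ b1), Finset.singleton_subset_iff] at c2
    rw [a5 _ _ d3 (a6 _ b2), Finset.singleton_subset_iff] at c3
    rw [a5 _ _ d6 (a6 _ b2), Finset.singleton_subset_iff] at c4
    exact KF.excl ((d5 c1 c3 hab).mono d9) ((d8 c2 c4 hab).mono d10))
  exact a1 f b1 b2

end

theorem ev_not_pccc {S : Set Node} (hS : CoherentSuslin S) :
    ∀ᶠ w in gen (Cond S), ¬ PCCCIn w.M := by
  obtain ⟨ρ, h1, h2⟩ := exists_rho W1_Iio
  choose c hc using exists_level hS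
  obtain ⟨en⟩ : Nonempty (Finset Om ↪ Om) :=
    (Cardinal.le_def _ _).1 (Cardinal.mk_finset_of_infinite Om).le
  filter_upwards [(named_PP ρ c en true).ev_mem, (named_PP ρ c en false).ev_mem,
    (named_RR en).ev_mem, ev_isPO ρ c en en.injective true, ev_isPO ρ c en en.injective false,
    ev_cccIn ρ c en en.injective hS hc h1 h2 true, ev_cccIn ρ c en en.injective hS hc h1 h2 false,
    ev_not_cccIn ρ c en en.injective hS] with w a1 a2 a3 a4 a5 a6 a7 a8 h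
  exact a8 (h _ a1 _ a3 _ a2 _ a3 a4 a5 a6 a7)

theorem forces_of_not_pccc {S : Set Node} (hS : CoherentSuslin S)
    (φ : Language.graph.BoundedFormula Empty 0)
    (hφ : ∀ M, TransModelZFC M → ¬ PCCCIn M → Sat M φ ![]) (p : Cond S) : Forces φ ![] p := by
  haveI : Nonempty (Cond S) := ⟨p⟩
  refine Forces.reg fun q _ => ?_
  obtain ⟨w, a1, ⟨⟨a2, a3⟩, a4⟩, a5⟩ := exists_world q
    (((ev_zfc.and (ev_not_pccc hS)).and (ev_truth φ ![])).and ev_generic)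
  obtain ⟨r, b1, b2⟩ := (a4 ![] fun i => i.elim0).1 (hφ _ a2 a3)
  obtain ⟨s, -, b3, b4⟩ := a5.dir _ a1 _ b1
  exact ⟨s, b3, b2.mono b4⟩

end Pool.Agent.P.MP_78a647_lc
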