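import Pool.Agent.P.MP_78a647_lc.StepB

/-!
From the core contradiction to linked and centered families.
-/

namespace Pool.Agent.P.MP_78a647_lc

open Set Cardinal

theorem CCC.of_map {P Q : Type} [PartialOrder P] [PartialOrder Q] (f : P → Q)
    (hf : ∀ p q, Compat (f p) (f q) → Compat p q) (hQ : CCC Q) : CCC P := by
  intro A hA
  refine countable_of_injective_of_countable_image (f := f) (fun p hp q hq h => ?_) (hQ _ ?_)
  · by_contra hne
    exact hA hp hq hne (hf _ _ ⟨f q, h.ge, le_rfl⟩)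
  · rintro _ ⟨p, hp, rfl⟩ _ ⟨q, hq, rfl⟩ hne h
    exact hA hp hq (fun h' => hne (by rw [h'])) (hf _ _ h)

theorem ccc_pi (hP : PCCC) {Q : Type} [PartialOrder Q] (hQ : CCC Q) (I : Type) [Finite I] :
    CCC (I → Q) := by
  refine Finite.induction_empty_option (P := fun I => CCC (I → Q)) ?_ ?_ ?_ I
  · intro α β e h
    refine CCC.of_map (fun g => g ∘ e) ?_ h
    rintro p q ⟨r, h1, h2⟩
    exact ⟨r ∘ e.symm, fun b => by simpa using h1 (e.symm b), fun b => by simpa using h2 (e.symm b)⟩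
  · intro A _
    exact A.toFinite.countable
  · intro α _ h
    refine CCC.of_map (Q := Q × (α → Q)) (fun g => (g none, fun a => g (some a))) ?_ (hP _ _ hQ h)
    rintro p q ⟨r, h1, h2⟩
    refine ⟨fun o => o.elim r.1 r.2, fun o => ?_, fun o => ?_⟩
    · cases o
      · exact h1.1
      · exact h1.2 _
    · cases o
      · exact h2.1
      · exact h2.2 _

theorem CCC.exists_compat {P Y : Type} [PartialOrder P] (hP : CCC P) (F : Y → P) {S : Set Y}
    (hS : ¬ S.Countable) : ∃ a ∈ S, ∃ b ∈ S, a ≠ b ∧ Compat (F a) (F b) := by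
  by_contra h
  push Not at h
  refine hS (countable_of_injective_of_countable_image (f := F) (fun p hp q hq h' => ?_) (hP _ ?_))
  · by_contra hne
    exact h p hp q hq hne ⟨F q, h'.ge, le_rfl⟩
  · rintro _ ⟨p, hp, rfl⟩ _ ⟨q, hq, rfl⟩ hne
    exact h p hp q hq fun h' => hne (by rw [h'])

abbrev W1 : Type := (ℵ₁ : Cardinal.{0}).ord.ToType

theorem mk_W1 : #W1 = ℵ₁ := mk_ord_toType _

instance : Uncountable W1 := aleph1_le_mk_iff.1 mk_W1.ge

theorem W1_Iio (a : W1) : (Iio a).Countable := by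
  rw [countable_iff_lt_aleph_one]
  simpa using mk_Iio_lt a

theorem W1_inj {Y : Type} {S : Set Y} (hS : ¬ S.Countable) :
    ∃ e : W1 → Y, Function.Injective e ∧ ∀ a, e a ∈ S := by
  have : #W1 ≤ #S := by
    rw [mk_W1]
    exact not_lt.1 fun h => hS ((countable_iff_lt_aleph_one S).2 h)
  obtain ⟨e⟩ := (Cardinal.le_def _ _).1 this
  exact ⟨fun a => e a, Subtype.val_injective.comp e.injective, fun a => (e a).2⟩

theorem W1_code : ∃ b : W1 → ℕ → Bool, Function.Injective b := by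
  have : #W1 ≤ #(ℕ → Bool) := by
    rw [mk_W1]
    simpa using aleph_one_le_continuum
  obtain ⟨e⟩ := (Cardinal.le_def _ _).1 this
  exact ⟨e, e.injective⟩

theorem linked_core (hP : PCCC) {Q : Type} [PartialOrder Q] (hQ : CCC Q) (e : W1 → Q)
    {κ : Type} [Countable κ] (cls : ℕ → W1 → κ)
    (hmono : ∀ m m', m ≤ m' → ∀ p q, cls m' p = cls m' q → cls m p = cls m q)
    (hc : ∀ x y, x ≠ y → ∃ m, ∀ y', y' ≠ x → cls m y' = cls m y →
      (Compat (e x) (e y') ↔ Compat (e x) (e y))) :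
    ∃ S : Set W1, ¬ S.Countable ∧ ∀ a ∈ S, ∀ b ∈ S, a ≠ b → Compat (e a) (e b) := by
  by_contra h
  push Not at h
  obtain ⟨b, hb⟩ := W1_code
  refine core W1_Iio b hb (fun x y => ¬ Compat (e x) (e y))
    (fun x y h1 ⟨r, h2, h3⟩ => h1 ⟨r, h3, h2⟩) cls hmono (fun x y hxy => ?_)
    (fun I _ a S hS => ?_) h hP
  · obtain ⟨m, hm⟩ := hc x y hxy
    exact ⟨m, fun y' h1 h2 => not_congr (hm y' h1 h2)⟩
  · obtain ⟨β, h1, β', h2, h3, r, h4, h5⟩ :=
      (ccc_pi hP hQ I).exists_compat (fun β ι => e (a β ι)) hS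
    exact ⟨β, h1, β', h2, h3, fun ι => Or.inr (not_not.2 ⟨r ι, h4 ι, h5 ι⟩)⟩

theorem delta_system {X : Type} [DecidableEq X] (n : ℕ) :
    ∀ (F : W1 → Finset X) (S : Set W1), ¬ S.Countable → (∀ a ∈ S, (F a).card = n) →
      ∃ (R : Finset X) (T : Set W1), T ⊆ S ∧ ¬ T.Countable ∧ (∀ a ∈ T, R ⊆ F a) ∧
        ∀ a ∈ T, ∀ b ∈ T, a ≠ b → ∀ x ∈ F a, x ∈ F b → x ∈ R := by
  induction n with
  | zero =>
    intro F S hS h
    refine ⟨∅, S, Subset.rfl, hS, fun a _ => Finset.empty_subset _, fun a ha b _ _ x hx _ => ?_⟩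
    rw [Finset.card_eq_zero.1 (h a ha)] at hx
    exact hx
  | succ n ih =>
    intro F S hS h
    by_cases h1 : ∃ x, ¬ {a ∈ S | x ∈ F a}.Countable
    · obtain ⟨x, hx⟩ := h1
      obtain ⟨R, T, h2, h3, h4, h5⟩ := ih (fun a => (F a).erase x) _ hx (fun a ha => by
        rw [Finset.card_erase_of_mem ha.2, h a ha.1]; rfl)
      refine ⟨insert x R, T, fun a ha => (h2 ha).1, h3, fun a ha => ?_,
        fun a ha b hb hab y hy hy' => ?_⟩
      · exact Finset.insert_subset (h2 ha).2 ((h4 a ha).trans (Finset.erase_subset _ _))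
      · by_cases hyx : y = x
        · exact hyx ▸ Finset.mem_insert_self _ _
        · exact Finset.mem_insert_of_mem (h5 a ha b hb hab y (Finset.mem_erase.2 ⟨hyx, hy⟩)
            (Finset.mem_erase.2 ⟨hyx, hy'⟩))
    · push Not at h1
      have : ∀ a, ∃ y, ∀ b ∈ ⋃ x ∈ (F a : Set X), {a ∈ S | x ∈ F a}, b < y := fun a =>
        exists_gt_of_countable W1_Iio ((F a).countable_toSet.biUnion fun x _ => h1 x)
      choose f hf using this
      obtain ⟨T, h2, h3, h4⟩ := exists_sparse W1_Iio hS f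
      have key : ∀ a ∈ T, ∀ b ∈ T, a < b → ∀ x ∈ F a, x ∉ F b := fun a ha b hb hab x hx hx' =>
        absurd (hf a b (mem_iUnion₂.2 ⟨x, hx, h2 hb, hx'⟩)) (not_lt.2 (h4 a ha b hb hab).le)
      refine ⟨∅, T, h2, h3, fun a _ => Finset.empty_subset _, fun a ha b hb hab x hx hx' => ?_⟩
      rcases lt_or_gt_of_ne hab with h5 | h5
      · exact (key a ha b hb h5 x hx hx').elim
      · exact (key b hb a ha h5 x hx' hx).elim

theorem compat_iff {X : Type} {K : X → X → Prop} (p q : Hom K) :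
    Compat p q ↔ (((OrderDual.ofDual p).1 : Set X) ∪ (OrderDual.ofDual q).1).Pairwise K := by
  classical
  constructor
  · rintro ⟨r, h1, h2⟩
    exact (OrderDual.ofDual r).2.mono (union_subset h1 h2)
  · intro h
    refine ⟨OrderDual.toDual ⟨_ ∪ _, ?_⟩, Finset.subset_union_left, Finset.subset_union_right⟩
    rw [Finset.coe_union]
    exact h

theorem centered_of_linked {X : Type} {K : X → X → Prop} (B : Set (Hom K))
    (h : ∀ p ∈ B, ∀ q ∈ B, Compat p q) : Centered B := by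
  classical
  intro F hF
  refine ⟨OrderDual.toDual ⟨F.biUnion fun p => (OrderDual.ofDual p).1, ?_⟩, fun p hp => ?_⟩
  · intro x hx y hy hxy
    obtain ⟨p, hp, hx⟩ := Finset.mem_biUnion.1 hx
    obtain ⟨q, hq, hy⟩ := Finset.mem_biUnion.1 hy
    exact (compat_iff p q).1 (h p (hF hp) q (hF hq)) (Or.inl hx) (Or.inr hy) hxy
  · exact Finset.subset_biUnion_of_mem (fun p : Hom K => (OrderDual.ofDual p).1) hp

theorem precaliber (hP : PCCC) {X : Type} [TopologicalSpace X] [SecondCountableTopology X]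
    (K : X → X → Prop) (hK : ∀ x y, K x y → K y x)
    (hcl : ∀ x, IsClopen {y : {y : X // y ≠ x} | K x y}) (hccc : CCC (Hom K))
    (A : Set (Hom K)) (hA : ¬ A.Countable) : ∃ B ⊆ A, ¬ B.Countable ∧ Centered B := by
  classical
  obtain ⟨e0, he0, he0A⟩ := W1_inj hA
  let F : W1 → Finset X := fun a => (OrderDual.ofDual (e0 a)).1
  obtain ⟨n, hn⟩ := exists_uncountable_fibre (S := (univ : Set W1)) not_countable_univ
    fun a => (F a).card
  obtain ⟨R, T, -, hT, hR1, hR2⟩ := delta_system n F _ hn fun a ha => ha.2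
  obtain ⟨k, hk⟩ := exists_uncountable_fibre hT fun a => (F a \ R).card
  obtain ⟨e1, he1, he1T⟩ := W1_inj hk
  let x : W1 → Fin k → X := fun a j => (Finset.equivFinOfCardEq (he1T a).2).symm j
  have hx1 : ∀ a j, x a j ∈ F (e1 a) \ R := fun a j =>
    ((Finset.equivFinOfCardEq (he1T a).2).symm j).2
  have hx2 : ∀ a, ∀ y ∈ F (e1 a), y ∉ R → ∃ j, x a j = y := fun a y hy hy' =>
    ⟨Finset.equivFinOfCardEq (he1T a).2 ⟨y, Finset.mem_sdiff.2 ⟨hy, hy'⟩⟩, by simp [x]⟩
  have hx3 : ∀ a b, a ≠ b → ∀ j l, x b l ≠ x a j := by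
    intro a b hab j l h
    have h1 := Finset.mem_sdiff.1 (hx1 a j)
    have h2 := Finset.mem_sdiff.1 (hx1 b l)
    exact h1.2 (hR2 _ (he1T a).1 _ (he1T b).1 (he1.ne hab) _ h1.1 (h ▸ h2.1))
  have hcomp : ∀ a b, a ≠ b → (Compat (e0 (e1 a)) (e0 (e1 b)) ↔ ∀ j l, K (x a j) (x b l)) := by
    intro a b hab
    rw [compat_iff]
    constructor
    · intro h j l
      exact h (Or.inl (Finset.mem_sdiff.1 (hx1 a j)).1) (Or.inr (Finset.mem_sdiff.1 (hx1 b l)).1)
        (hx3 a b hab j l).symm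
    · intro h
      have p1 : (F (e1 a) : Set X).Pairwise K := (OrderDual.ofDual (e0 (e1 a))).2
      have p2 : (F (e1 b) : Set X).Pairwise K := (OrderDual.ofDual (e0 (e1 b))).2
      have cross : ∀ u ∈ F (e1 a), ∀ v ∈ F (e1 b), u ≠ v → K u v := by
        intro u hu v hv huv
        by_cases h1 : u ∈ R
        · exact p2 (hR1 _ (he1T b).1 h1) hv huv
        by_cases h2 : v ∈ R
        · exact p1 hu (hR1 _ (he1T a).1 h2) huv
        obtain ⟨j, rfl⟩ := hx2 a u hu h1
        obtain ⟨l, rfl⟩ := hx2 b v hv h2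
        exact h j l
      rintro u (hu | hu) v (hv | hv) huv
      · exact p1 hu hv huv
      · exact cross u hu v hv huv
      · exact hK _ _ (cross v hv u hu huv.symm)
      · exact p2 hu hv huv
  obtain ⟨U, hU⟩ : ∃ U : ℕ → Set X, ∀ (V : Set X), IsOpen V → ∀ y ∈ V, ∃ i, y ∈ U i ∧ U i ⊆ V := by
    obtain ⟨U, hU⟩ := ((TopologicalSpace.countable_countableBasis X).insert ∅).exists_eq_range
      (insert_nonempty _ _)
    refine ⟨U, fun V hV y hy => ?_⟩
    obtain ⟨u, hu, h1, h2⟩ :=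
      (TopologicalSpace.isBasis_countableBasis X).exists_subset_of_mem_open hy hV
    obtain ⟨i, rfl⟩ : u ∈ range U := hU ▸ mem_insert_of_mem _ hu
    exact ⟨i, h1, h2⟩
  have hmod : ∀ u v : X, v ≠ u → ∃ i, v ∈ U i ∧ ∀ v' ∈ U i, v' ≠ u → (K u v' ↔ K u v) := by
    intro u v huv
    by_cases h : K u v
    · obtain ⟨V, hV, h1⟩ := isOpen_induced_iff.1 (hcl u).isOpen
      obtain ⟨i, h2, h3⟩ := hU V hV v (by
        have : (⟨v, huv⟩ : {y : X // y ≠ u}) ∈ Subtype.val ⁻¹' V := h1 ▸ h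
        exact this)
      refine ⟨i, h2, fun v' h4 h5 => ⟨fun _ => h, fun _ => ?_⟩⟩
      have : (⟨v', h5⟩ : {y : X // y ≠ u}) ∈ Subtype.val ⁻¹' V := h3 h4
      rw [h1] at this
      exact this
    · obtain ⟨V, hV, h1⟩ := isOpen_induced_iff.1 (hcl u).compl.isOpen
      obtain ⟨i, h2, h3⟩ := hU V hV v (by
        have : (⟨v, huv⟩ : {y : X // y ≠ u}) ∈ Subtype.val ⁻¹' V := h1 ▸ h
        exact this)
      refine ⟨i, h2, fun v' h4 h5 => ⟨fun h6 => ?_, fun h6 => (h h6).elim⟩⟩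
      have : (⟨v', h5⟩ : {y : X // y ≠ u}) ∈ Subtype.val ⁻¹' V := h3 h4
      rw [h1] at this
      exact (this h6).elim
  let cls : ℕ → W1 → Fin k → Finset ℕ := fun m a j =>
    (Finset.range (m + 1)).filter fun i => x a j ∈ U i
  have hcls : ∀ m a b, cls m a = cls m b → ∀ j, ∀ i ≤ m, x b j ∈ U i → x a j ∈ U i := by
    intro m a b h j i hi hb
    have : i ∈ cls m b j := Finset.mem_filter.2 ⟨Finset.mem_range.2 (by omega), hb⟩
    rw [← h] at this
    exact (Finset.mem_filter.1 this).2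
  obtain ⟨S, hS1, hS2⟩ := linked_core hP hccc (fun a => e0 (e1 a)) cls (by
    intro m m' hm p q h
    funext j
    refine Finset.filter_congr fun i hi => ?_
    have hi' : i ≤ m' := by have := Finset.mem_range.1 hi; omega
    exact ⟨hcls m' q p h.symm j i hi', hcls m' p q h j i hi'⟩) (by
    intro a b hab
    choose i hi1 hi2 using fun p : Fin k × Fin k => hmod (x a p.1) (x b p.2) (hx3 a b hab p.1 p.2)
    obtain ⟨m, hm⟩ := (finite_range i).bddAbove
    refine ⟨m, fun b' hb' h => ?_⟩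
    rw [hcomp a b hab, hcomp a b' hb'.symm]
    refine forall_congr' fun j => forall_congr' fun l => ?_
    exact hi2 (j, l) _ (hcls m b' b h l _ (hm ⟨(j, l), rfl⟩) (hi1 (j, l)))
      (hx3 a b' hb'.symm j l))
  refine ⟨(fun a => e0 (e1 a)) '' S, ?_, fun h => hS1
    (countable_of_injective_of_countable_image (he0.comp he1).injOn h), centered_of_linked _ ?_⟩
  · rintro _ ⟨a, -, rfl⟩
    exact he0A _
  · rintro _ ⟨a, ha, rfl⟩ _ ⟨b, hb, rfl⟩
    by_cases hab : a = b
    · subst hab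
      exact ⟨_, le_rfl, le_rfl⟩
    · exact hS2 a ha b hb hab

end Pool.Agent.P.MP_78a647_lc
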