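import Mathlib

/-!
Elementary closure arguments in an uncountable well order all of whose proper initial segments
are countable.
-/

namespace Pool.Agent.P.MP_78a647_lc

open Set

section
variable {O : Type} [LinearOrder O]

theorem countable_Iic (hO : ∀ a : O, (Iio a).Countable) (a : O) : (Iic a).Countable := by
  rw [← Iio_insert]
  exact (hO a).insert a

theorem exists_gt_of_countable [Uncountable O] (hO : ∀ a : O, (Iio a).Countable) {S : Set O}
    (hS : S.Countable) : ∃ b, ∀ a ∈ S, a < b := by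
  have h : (⋃ a ∈ S, Iic a).Countable := hS.biUnion fun a _ => countable_Iic hO a
  have h2 : (⋃ a ∈ S, Iic a) ≠ univ := by
    intro h3
    rw [h3] at h
    exact Set.not_countable_univ h
  obtain ⟨b, hb⟩ := (Set.ne_univ_iff_exists_notMem _).1 h2
  refine ⟨b, fun a ha => ?_⟩
  by_contra h4
  exact hb (mem_iUnion₂.2 ⟨a, ha, not_lt.1 h4⟩)

theorem exists_gt_mem (hO : ∀ a : O, (Iio a).Countable) {S : Set O} (hS : ¬ S.Countable) (a : O) :
    ∃ b ∈ S, a < b := by
  by_contra h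
  push Not at h
  exact hS ((countable_Iic hO a).mono fun b hb => h b hb)

theorem not_countable_of_unbounded [Uncountable O] (hO : ∀ a : O, (Iio a).Countable) {S : Set O}
    (h : ∀ a, ∃ b ∈ S, a ≤ b) : ¬ S.Countable := by
  intro hS
  obtain ⟨b, hb⟩ := exists_gt_of_countable hO hS
  obtain ⟨a, ha, hba⟩ := h b
  exact absurd (hb a ha) (not_lt.2 hba)

theorem exists_closure [WellFoundedLT O] [Uncountable O] (hO : ∀ a : O, (Iio a).Countable)
    (f : O → O) (a : O) : ∃ δ, a < δ ∧ ∀ γ < δ, f γ < δ := by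
  have h1 : ∀ x : O, ∃ y, x < y ∧ ∀ γ ≤ x, f γ < y := by
    intro x
    obtain ⟨y, hy⟩ := exists_gt_of_countable hO (((countable_Iic hO x).image f).insert x)
    exact ⟨y, hy x (mem_insert _ _), fun γ hγ => hy _ (mem_insert_of_mem _ ⟨γ, hγ, rfl⟩)⟩
  choose s hs1 hs2 using h1
  let u : ℕ → O := fun n => s^[n] a
  have hu : ∀ n, u (n + 1) = s (u n) := fun n => Function.iterate_succ_apply' s n a
  obtain ⟨b, hb⟩ := exists_gt_of_countable hO (countable_range u)
  have hne : ({b | ∀ n, u n < b} : Set O).Nonempty := ⟨b, fun n => hb _ ⟨n, rfl⟩⟩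
  let δ := wellFounded_lt.min _ hne
  have hδ : ∀ n, u n < δ := wellFounded_lt.min_mem _ hne
  refine ⟨δ, hδ 0, fun γ hγ => ?_⟩
  have : ¬ ∀ n, u n < γ := fun h => wellFounded_lt.not_lt_min {b | ∀ n, u n < b} h hγ
  push Not at this
  obtain ⟨n, hn⟩ := this
  exact (hs2 _ _ hn).trans (hu n ▸ hδ (n + 1))

theorem exists_sparse [WellFoundedLT O] [Uncountable O] (hO : ∀ a : O, (Iio a).Countable)
    {S : Set O} (hS : ¬ S.Countable) (f : O → O) :
    ∃ T ⊆ S, ¬ T.Countable ∧ ∀ a ∈ T, ∀ b ∈ T, a < b → f a < b := by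
  refine ⟨{b ∈ S | ∃ δ, (∀ γ < δ, f γ < δ) ∧ δ ≤ b ∧ ∀ a ∈ S, δ ≤ a → b ≤ a},
    fun b hb => hb.1, ?_, ?_⟩
  · refine not_countable_of_unbounded hO fun a => ?_
    obtain ⟨δ, hδ1, hδ2⟩ := exists_closure hO f a
    have hne : ({b ∈ S | δ ≤ b} : Set O).Nonempty := by
      obtain ⟨b, hb, hb2⟩ := exists_gt_mem hO hS δ
      exact ⟨b, hb, hb2.le⟩
    have hm := wellFounded_lt.min_mem _ hne
    refine ⟨wellFounded_lt.min _ hne, ⟨hm.1, δ, hδ2, hm.2, fun x hx hδx => ?_⟩,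
      hδ1.le.trans hm.2⟩
    exact not_lt.1 (wellFounded_lt.not_lt_min {b ∈ S | δ ≤ b} ⟨hx, hδx⟩)
  · rintro a ⟨ha, -⟩ b ⟨-, δ, h1, h2, h3⟩ hab
    have : a < δ := by
      by_contra h
      exact absurd (h3 a ha (not_lt.1 h)) (not_le.2 hab)
    exact (h1 a this).trans_le h2

theorem exists_two_stationary [WellFoundedLT O] [Uncountable O]
    (hO : ∀ a : O, (Iio a).Countable) (b : O → ℕ → Bool) (hb : Function.Injective b) :
    ∃ g : O → Bool, ∀ (i : Bool) (f : O → O) (a : O),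
      ∃ δ, g δ = i ∧ a < δ ∧ ∀ γ < δ, f γ < δ := by
  by_contra h
  push Not at h
  have h' := fun m => h (fun δ => b δ m)
  choose i f a hf using h'
  obtain ⟨A, hA⟩ := exists_gt_of_countable hO (countable_range a)
  have hF : ∀ γ, ∃ y, ∀ m, f m γ < y := fun γ => by
    obtain ⟨y, hy⟩ := exists_gt_of_countable hO (countable_range fun m => f m γ)
    exact ⟨y, fun m => hy _ ⟨m, rfl⟩⟩
  choose F hF using hF
  have key : ∀ δ, A < δ → (∀ γ < δ, F γ < δ) → ∀ m, b δ m = !(i m) := by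
    intro δ h1 h2 m
    have : b δ m ≠ i m := by
      intro h3
      obtain ⟨γ, hγ, h4⟩ := hf m δ h3 ((hA _ ⟨m, rfl⟩).trans h1)
      exact absurd ((hF γ m).trans (h2 γ hγ)) (not_lt.2 h4)
    cases h3 : b δ m <;> cases h4 : i m <;> simp_all
  obtain ⟨δ1, h1, h2⟩ := exists_closure hO F A
  obtain ⟨δ2, h3, h4⟩ := exists_closure hO F δ1
  have : δ1 = δ2 := hb (funext fun m => (key δ1 h1 h2 m).trans (key δ2 (h1.trans h3) h4 m).symm)
  exact absurd this h3.ne

theorem exists_bound_fun [Uncountable O] (hO : ∀ a : O, (Iio a).Countable) {T : Type}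
    (le : T → O → Prop) (hT : ∀ γ, {t | le t γ}.Countable) (h : T → O) :
    ∃ f : O → O, ∀ t γ, le t γ → h t < f γ := by
  have : ∀ γ, ∃ y, ∀ t, le t γ → h t < y := fun γ => by
    obtain ⟨y, hy⟩ := exists_gt_of_countable hO ((hT γ).image h)
    exact ⟨y, fun t ht => hy _ ⟨t, ht, rfl⟩⟩
  choose f hf using this
  exact ⟨f, fun t γ => hf γ t⟩

theorem exists_bound_finite {T : Set O} (hT : T.Finite) {δ a : O} (ha : a < δ)
    (h : ∀ t ∈ T, t < δ) : ∃ γ < δ, ∀ t ∈ T, t ≤ γ := by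
  obtain ⟨γ, hγ, h2⟩ := Set.exists_max_image (insert a T) id (hT.insert a) ⟨a, mem_insert _ _⟩
  refine ⟨γ, ?_, fun t ht => h2 t (mem_insert_of_mem _ ht)⟩
  rcases hγ with rfl | hγ
  · exact ha
  · exact h _ hγ

end

theorem exists_uncountable_fibre {α κ : Type} [Countable κ] {S : Set α} (hS : ¬ S.Countable)
    (h : α → κ) : ∃ k, ¬ {a ∈ S | h a = k}.Countable := by
  by_contra h1
  push Not at h1
  refine hS ((countable_iUnion h1).mono fun a ha => ?_)
  exact mem_iUnion.2 ⟨h a, ha, rfl⟩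

end Pool.Agent.P.MP_78a647_lc
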