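import Pool.Agent.P.MP_78a647_lc.Omega

/-!
A system of maps `φ x : ℕ → O` assembled from almost disjointly indexed ladders.
-/

namespace Pool.Agent.P.MP_78a647_lc

open Set

def cd (b : ℕ → Bool) : ℕ → ℕ
  | 0 => 1
  | l + 1 => Nat.bit (b l) (cd b l)

theorem cd_pos (b : ℕ → Bool) (l : ℕ) : 0 < cd b l := by
  induction l with
  | zero => simp [cd]
  | succ l ih => simp only [cd, Nat.bit_val]; omega

theorem cd_strictMono (b : ℕ → Bool) : StrictMono (cd b) := by
  refine strictMono_nat_of_lt_succ fun l => ?_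
  have := cd_pos b l
  simp only [cd, Nat.bit_val]; omega

theorem bit_inj' {a b : Bool} {m n : ℕ} (h : Nat.bit a m = Nat.bit b n) : a = b ∧ m = n := by
  have h1 := congrArg Nat.bodd h
  have h2 := congrArg Nat.div2 h
  simp only [Nat.bodd_bit, Nat.div2_bit] at h1 h2
  exact ⟨h1, h2⟩

theorem cd_inj (b b' : ℕ → Bool) : ∀ l j, cd b l = cd b' j → ∀ i < l, b i = b' i := by
  intro l
  induction l with
  | zero => intro j _ i hi; omega
  | succ l ih =>
    intro j h i hi
    cases j with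
    | zero =>
      have := cd_pos b l
      simp only [cd, Nat.bit_val] at h; omega
    | succ j =>
      have h0 : Nat.bit (b l) (cd b l) = Nat.bit (b' j) (cd b' j) := h
      obtain ⟨h1, h2⟩ := bit_inj' h0
      have hlj : l = j := by
        have key : ∀ (b : ℕ → Bool) (l : ℕ), 2 ^ l ≤ cd b l ∧ cd b l < 2 ^ (l + 1) := by
          intro b l
          induction l with
          | zero => simp [cd]
          | succ l ih =>
            simp only [cd, Nat.bit_val, pow_succ] at ih ⊢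
            have : (b l).toNat ≤ 1 := Bool.toNat_le _
            omega
        have a1 := key b l
        have a2 := key b' j
        rw [h2] at a1
        have b1 : l < j + 1 := (Nat.pow_lt_pow_iff_right (by norm_num)).1 (a1.1.trans_lt a2.2)
        have b2 : j < l + 1 := (Nat.pow_lt_pow_iff_right (by norm_num)).1 (a2.1.trans_lt a1.2)
        omega
      subst hlj
      rcases Nat.lt_succ_iff_lt_or_eq.1 hi with hi | rfl
      · exact ih _ h2 i hi
      · exact h1

variable {O : Type} [LinearOrder O]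

theorem exists_ladders (hO : ∀ a : O, (Iio a).Countable) :
    ∃ r : O → ℕ → O, (∀ lam, Monotone (r lam)) ∧ (∀ lam l, r lam l ≤ lam) ∧
      (∀ lam l a, a < lam → r lam l < lam) ∧ ∀ lam a, a < lam → ∃ l, a ≤ r lam l := by
  have : ∀ lam : O, ∃ r : ℕ → O, Monotone r ∧ (∀ l, r l ≤ lam) ∧
      (∀ l a, a < lam → r l < lam) ∧ ∀ a, a < lam → ∃ l, a ≤ r l := by
    intro lam
    by_cases h : (Iio lam).Nonempty
    · obtain ⟨e, he⟩ := (hO lam).exists_eq_range h
      have hlt : ∀ l, partialSups e l < lam := by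
        intro l
        induction l with
        | zero =>
          have : e 0 ∈ Iio lam := he ▸ mem_range_self 0
          simpa using this
        | succ l ih =>
          have : e (l + 1) ∈ Iio lam := he ▸ mem_range_self _
          rw [partialSups_add_one]
          exact max_lt ih this
      refine ⟨partialSups e, (partialSups e).monotone, fun l => (hlt l).le,
        fun l _ _ => hlt l, fun a ha => ?_⟩
      have : a ∈ range e := he ▸ ha
      obtain ⟨l, rfl⟩ := this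
      exact ⟨l, le_partialSups e l⟩
    · exact ⟨fun _ => lam, monotone_const, fun _ => le_rfl, fun _ a ha => (h ⟨a, ha⟩).elim,
        fun a ha => (h ⟨a, ha⟩).elim⟩
  choose r h1 h2 h3 h4 using this
  exact ⟨r, h1, h2, h3, h4⟩

theorem exists_phi [WellFoundedLT O] (hO : ∀ a : O, (Iio a).Countable) (b : O → ℕ → Bool)
    (hb : Function.Injective b) (g : O → Bool) :
    ∃ φ : O → ℕ → O, (∀ x n, φ x n ≤ x) ∧ ∃ (nx : O → O → ℕ) (px : O → O → O),
      (∀ δ' δ, (nx δ' δ).bodd = g δ') ∧ (∀ δ' δ, δ < δ' → δ ≤ px δ' δ ∧ px δ' δ < δ') ∧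
      ∀ δ' a, a < δ' → ∀ x, δ' ≤ x → ∃ γ < δ', ∀ δ, γ < δ → δ < δ' →
        φ x (nx δ' δ) = px δ' δ ∧ ∀ n < nx δ' δ, φ x n < δ ∨ δ' ≤ φ x n := by
  classical
  obtain ⟨r, hr1, hr2, hr3, hr4⟩ := exists_ladders hO
  let N : O → ℕ → ℕ := fun lam l => Nat.bit (g lam) (cd (b lam) l)
  have hN1 : ∀ lam, StrictMono (N lam) := by
    intro lam l j h
    have := cd_strictMono (b lam) h
    simp only [N, Nat.bit_val]; omega
  have hN2 : ∀ lam mu, lam ≠ mu → ∀ᶠ l in Filter.atTop, ∀ j, N mu j ≠ N lam l := by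
    intro lam mu h
    obtain ⟨i, hi⟩ := Function.ne_iff.1 (hb.ne h)
    filter_upwards [Filter.eventually_gt_atTop i] with l hl j hj
    exact hi (cd_inj _ _ _ _ (bit_inj' hj).2.symm i hl)
  have hι : ∀ x : O, ∃ ι : O → ℕ, InjOn ι (Iic x) := fun x =>
    Set.countable_iff_exists_injOn.1 (countable_Iic hO x)
  choose ι hι using hι
  let Al : O → O → ℕ → Prop := fun x lam l => lam ≤ x ∧ ∀ mu ≤ x, ι x mu < ι x lam →
    (mu < lam → mu ≤ r lam l) ∧ (lam < mu → ∀ j, r mu j < lam → N mu (j + 1) ≤ N lam l) ∧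
      ∀ j, N mu j ≠ N lam l
  have hfin : ∀ x lam, {mu | mu ≤ x ∧ ι x mu < ι x lam}.Finite := by
    intro x lam
    refine Set.Finite.of_finite_image (f := ι x) ((Set.finite_Iio (ι x lam)).subset ?_)
      ((hι x).mono fun mu h => h.1)
    rintro _ ⟨mu, h, rfl⟩
    exact h.2
  have hfin2 : ∀ lam mu, lam < mu → {j | r mu j < lam}.Finite := by
    intro lam mu h
    obtain ⟨l, hl⟩ := hr4 mu lam h
    refine (Set.finite_Iio l).subset fun j hj => ?_
    by_contra h2
    exact absurd (hl.trans (hr1 mu (not_lt.1 h2))) (not_le.2 hj)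
  have hAl : ∀ x lam, lam ≤ x → ∀ᶠ l in Filter.atTop, Al x lam l := by
    intro x lam hx
    have : ∀ᶠ l in Filter.atTop, ∀ mu ∈ {mu | mu ≤ x ∧ ι x mu < ι x lam},
        (mu < lam → mu ≤ r lam l) ∧ (lam < mu → ∀ j, r mu j < lam → N mu (j + 1) ≤ N lam l) ∧
          ∀ j, N mu j ≠ N lam l := by
      refine (Filter.eventually_all_finite (hfin x lam)).2 fun mu hmu => ?_
      have hne : lam ≠ mu := fun h => by subst h; exact lt_irrefl _ hmu.2
      refine Filter.Eventually.and ?_ (Filter.Eventually.and ?_ (hN2 lam mu hne))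
      · by_cases h : mu < lam
        · obtain ⟨l0, hl0⟩ := hr4 lam mu h
          filter_upwards [Filter.eventually_ge_atTop l0] with l hl _
          exact hl0.trans (hr1 lam hl)
        · exact Filter.Eventually.of_forall fun l h' => (h h').elim
      · by_cases h : lam < mu
        · have : ∀ᶠ l in Filter.atTop, ∀ j ∈ {j | r mu j < lam}, N mu (j + 1) ≤ N lam l := by
            refine (Filter.eventually_all_finite (hfin2 lam mu h)).2 fun j _ => ?_
            filter_upwards [Filter.eventually_ge_atTop (N mu (j + 1))] with l hl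
            exact hl.trans ((hN1 lam).le_apply)
          filter_upwards [this] with l hl _ j hj
          exact hl j hj
        · exact Filter.Eventually.of_forall fun l h' => (h h').elim
    filter_upwards [this] with l hl
    exact ⟨hx, fun mu h1 h2 => hl mu ⟨h1, h2⟩⟩
  have huniq : ∀ x lam l mu j, Al x lam l → Al x mu j → N lam l = N mu j → lam = mu ∧ l = j := by
    intro x lam l mu j h1 h2 h3
    have : lam = mu := by
      by_contra hne
      rcases lt_trichotomy (ι x lam) (ι x mu) with h | h | h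
      · exact (h2.2 lam h1.1 h).2.2 l h3
      · exact hne (hι x h1.1 h2.1 h)
      · exact (h1.2 mu h2.1 h).2.2 j h3.symm
    subst this
    exact ⟨rfl, (hN1 lam).injective h3⟩
  let φ : O → ℕ → O := fun x k =>
    if h : ∃ p : O × ℕ, Al x p.1 p.2 ∧ N p.1 p.2 = k then r h.choose.1 h.choose.2 else x
  have hφ1 : ∀ x lam l, Al x lam l → φ x (N lam l) = r lam l := by
    intro x lam l h
    have h' : ∃ p : O × ℕ, Al x p.1 p.2 ∧ N p.1 p.2 = N lam l := ⟨(lam, l), h, rfl⟩
    obtain ⟨h1, h2⟩ := huniq x _ _ _ _ h'.choose_spec.1 h h'.choose_spec.2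
    simp only [φ, dif_pos h']
    rw [h1, h2]
  have hφ2 : ∀ x k, φ x k = x ∨ ∃ mu j, Al x mu j ∧ N mu j = k ∧ φ x k = r mu j := by
    intro x k
    by_cases h : ∃ p : O × ℕ, Al x p.1 p.2 ∧ N p.1 p.2 = k
    · obtain ⟨⟨mu, j⟩, h1, h2⟩ := h
      exact Or.inr ⟨mu, j, h1, h2, h2 ▸ hφ1 x mu j h1⟩
    · exact Or.inl (by simp only [φ, dif_neg h])
  let l0 : O → O → ℕ := fun δ' δ => if h : ∃ l, δ ≤ r δ' l then Nat.find h else 0
  have hl0 : ∀ δ' δ, δ < δ' → δ ≤ r δ' (l0 δ' δ) ∧ ∀ l < l0 δ' δ, r δ' l < δ := by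
    intro δ' δ h
    have h' := hr4 δ' δ h
    simp only [l0, dif_pos h']
    exact ⟨Nat.find_spec h', fun l hl => not_le.1 (Nat.find_min h' hl)⟩
  refine ⟨φ, fun x n => ?_, fun δ' δ => N δ' (l0 δ' δ), fun δ' δ => r δ' (l0 δ' δ),
    fun δ' δ => Nat.bodd_bit _ _, fun δ' δ h => ⟨(hl0 δ' δ h).1, hr3 _ _ _ h⟩, ?_⟩
  · rcases hφ2 x n with h | ⟨mu, j, h1, -, h3⟩
    · exact h.le
    · exact h3 ▸ (hr2 mu j).trans h1.1
  intro δ' a ha x hx
  obtain ⟨L, hL⟩ := Filter.eventually_atTop.1 (hAl x δ' hx)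
  let T : Set O := {r δ' L} ∪ ({mu | mu ≤ x ∧ ι x mu < ι x δ'} ∩ Iio δ') ∪
    ⋃ mu ∈ {mu | mu ≤ x ∧ ι x mu < ι x δ'} ∩ Ioi δ', r mu '' {j | r mu j < δ'}
  have hT : T.Finite := by
    refine ((finite_singleton _).union ((hfin x δ').inter_of_left _)).union ?_
    exact ((hfin x δ').inter_of_left _).biUnion fun mu hmu => (hfin2 δ' mu hmu.2).image _
  obtain ⟨γ, hγ, hγT⟩ := exists_bound_finite hT ha (by
    rintro t ((rfl | ht) | ht)
    · exact hr3 _ _ _ ha
    · exact ht.2
    · obtain ⟨mu, -, j, hj, rfl⟩ := mem_iUnion₂.1 ht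
      exact hj)
  refine ⟨γ, hγ, fun δ h1 h2 => ?_⟩
  obtain ⟨h3, h4⟩ := hl0 δ' δ h2
  have hLl : L < l0 δ' δ := by
    by_contra h
    have : r δ' L ≤ γ := hγT _ (Or.inl (Or.inl rfl))
    exact absurd (h3.trans ((hr1 δ' (not_lt.1 h)).trans this)) (not_le.2 h1)
  refine ⟨hφ1 x δ' _ (hL _ hLl.le), fun n hn => ?_⟩
  rcases hφ2 x n with h | ⟨mu, j, h5, rfl, h7⟩
  · exact Or.inr (hx.trans h.ge)
  rw [h7]
  rcases lt_trichotomy (ι x mu) (ι x δ') with h | h | h
  · rcases lt_trichotomy mu δ' with h8 | h8 | h8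
    · exact Or.inl ((hr2 mu j).trans_lt ((hγT mu (Or.inl (Or.inr ⟨⟨h5.1, h⟩, h8⟩))).trans_lt h1))
    · subst h8; exact (lt_irrefl _ h).elim
    · by_cases h9 : r mu j < δ'
      · exact Or.inl ((hγT _ (Or.inr (mem_iUnion₂.2 ⟨mu, ⟨⟨h5.1, h⟩, h8⟩, j, h9, rfl⟩))).trans_lt h1)
      · exact Or.inr (not_lt.1 h9)
  · have : mu = δ' := hι x h5.1 hx h
    subst this
    exact Or.inl (h4 j ((hN1 mu).lt_iff_lt.1 hn))
  · obtain ⟨h8, h9, -⟩ := h5.2 δ' hx h
    rcases lt_trichotomy mu δ' with h10 | h10 | h10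
    · left
      by_contra h11
      obtain ⟨l1, hl1⟩ : ∃ l1, l0 δ' δ = l1 + 1 := ⟨l0 δ' δ - 1, by omega⟩
      have h12 : r δ' l1 < mu := (h4 l1 (by omega)).trans_le ((not_lt.1 h11).trans (hr2 mu j))
      have h13 := h9 h10 l1 h12
      rw [← hl1] at h13
      exact absurd hn (not_lt.2 h13)
    · subst h10; exact (lt_irrefl _ h).elim
    · exact Or.inr (h8 h10)

end Pool.Agent.P.MP_78a647_lc
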