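import Pool.Agent.P.MP_78a647_lc.Main

/-!
A coherent finite-to-one sequence and synchronisation of first differences.
-/

namespace Pool.Agent.P.MP_78a647_lc

open Set

variable {O : Type} [LinearOrder O] [WellFoundedLT O]

theorem exists_rho (hO : ∀ a : O, (Iio a).Countable) :
    ∃ ρ : O → O → ℕ, (∀ β n, {α | α ≤ β ∧ ρ β α ≤ n}.Finite) ∧
      ∀ β γ, γ ≤ β → {α | α ≤ γ ∧ ρ β α ≠ ρ γ α}.Finite := by
  classical
  obtain ⟨r, -, -, hr3, hr4⟩ := exists_ladders hO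
  let l : O → O → ℕ := fun β α => if h : ∃ l, α ≤ r β l then Nat.find h else 0
  have hl1 : ∀ β α, α < β → α ≤ r β (l β α) := by
    intro β α h
    have h' := hr4 β α h
    simp only [l, dif_pos h']
    exact Nat.find_spec h'
  have hl2 : ∀ β α L, α ≤ r β L → l β α ≤ L := by
    intro β α L h
    have h' : ∃ l, α ≤ r β l := ⟨L, h⟩
    simp only [l, dif_pos h']
    exact Nat.find_min' h' h
  let ρ : O → O → ℕ := (wellFounded_lt (α := O)).fix fun β f α =>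
    if h : α < β then max (l β α) (f (r β (l β α)) (hr3 β _ α h) α) else 0
  have hρ : ∀ β α, α < β → ρ β α = max (l β α) (ρ (r β (l β α)) α) := by
    intro β α h
    simp only [ρ]
    rw [WellFounded.fix_eq]
    simp only [dif_pos h]
  have h1 : ∀ β n, {α | α ≤ β ∧ ρ β α ≤ n}.Finite := by
    intro β
    induction β using WellFoundedLT.induction with
    | ind β ih =>
    intro n
    by_cases h0 : ∃ a, a < β
    · obtain ⟨a, ha⟩ := h0
      refine (((Set.finite_Iic n).biUnion fun L _ => ih (r β L) (hr3 β L a ha) n).insert β).subset ?_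
      rintro α ⟨h2, h3⟩
      rcases h2.lt_or_eq with h2 | h2
      · rw [hρ β α h2, max_le_iff] at h3
        exact Or.inr (mem_iUnion₂.2 ⟨l β α, h3.1, hl1 β α h2, h3.2⟩)
      · exact Or.inl h2
    · refine (finite_singleton β).subset fun α h => ?_
      exact h.1.lt_or_eq.resolve_left fun h' => h0 ⟨α, h'⟩
  refine ⟨ρ, h1, fun β => ?_⟩
  induction β using WellFoundedLT.induction with
  | ind β ih =>
  intro γ hγ
  rcases hγ.lt_or_eq with hγ | rfl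
  swap
  · simp
  obtain ⟨L, hL⟩ := hr4 β γ hγ
  have h2 : ∀ L', {α | α ≤ γ ∧ α ≤ r β L' ∧ ρ (r β L') α ≠ ρ γ α}.Finite := by
    intro L'
    rcases le_total γ (r β L') with h | h
    · exact (ih _ (hr3 β L' γ hγ) γ h).subset fun α hα => ⟨hα.1, hα.2.2⟩
    · exact (ih γ hγ _ h).subset fun α hα => ⟨hα.2.1, hα.2.2.symm⟩
  refine ((Set.finite_Iic L).biUnion fun L' _ =>
    (h2 L').union (h1 (r β L') L)).subset fun α hα => ?_
  have h3 : α < β := hα.1.trans_lt hγ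
  have h4 := hl2 β α L (hα.1.trans hL)
  refine mem_iUnion₂.2 ⟨l β α, h4, ?_⟩
  by_cases h5 : ρ (r β (l β α)) α = ρ γ α
  · right
    refine ⟨hl1 β α h3, ?_⟩
    by_contra h6
    apply hα.2
    rw [hρ β α h3, max_eq_right (by omega), h5]
  · exact Or.inl ⟨hα.1, hl1 β α h3, h5⟩

theorem fodor_lite [Uncountable O] (hO : ∀ a : O, (Iio a).Countable) (f : O → O) (a : O)
    (hf : ∀ γ, a < γ → f γ < γ) : ∃ η, ¬ {γ | a < γ ∧ f γ ≤ η}.Countable := by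
  by_contra h
  push Not at h
  choose g hg using fun η => exists_gt_of_countable hO (h η)
  obtain ⟨δ, h1, h2⟩ := exists_closure hO g a
  exact lt_asymm (hg (f δ) δ ⟨h1, le_rfl⟩) (h2 _ (hf δ h1))

theorem sync [Uncountable O] (hO : ∀ a : O, (Iio a).Countable) (ρ : O → O → ℕ)
    (h1 : ∀ β n, {α | α ≤ β ∧ ρ β α ≤ n}.Finite)
    (h2 : ∀ β γ, γ ≤ β → {α | α ≤ γ ∧ ρ β α ≠ ρ γ α}.Finite)
    {J : Type} [Finite J] (a : O → J → O) (ha : ∀ γ j, γ ≤ a γ j) (η0 : O) :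
    ∃ Γ : Set O, ¬ Γ.Countable ∧ ∀ γ ∈ Γ, ∀ δ ∈ Γ, γ ≠ δ → ∃ ξ, η0 < ξ ∧ ξ ≤ γ ∧ ξ ≤ δ ∧
      (∀ j, ∀ η < ξ, ρ (a γ j) η = ρ (a δ j) η) ∧ ∀ j l, ρ (a γ j) ξ ≠ ρ (a δ l) ξ := by
  classical
  have h3 : ∀ γ, ∃ η, η0 < γ → η < γ ∧ η0 ≤ η ∧ ∀ j ζ, η < ζ → ζ < γ → ρ (a γ j) ζ = ρ γ ζ := by
    intro γ
    by_cases h : η0 < γ
    · have hfin : (insert η0 ((⋃ j, {α | α ≤ γ ∧ ρ (a γ j) α ≠ ρ γ α}) ∩ Iio γ)).Finite :=
        ((finite_iUnion fun j => h2 _ _ (ha γ j)).inter_of_left _).insert _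
      obtain ⟨η, h4, h5⟩ := exists_bound_finite hfin h (by
        rintro t (rfl | ht)
        · exact h
        · exact ht.2)
      refine ⟨η, fun _ => ⟨h4, h5 _ (mem_insert _ _), fun j ζ h6 h7 => ?_⟩⟩
      by_contra h8
      exact absurd (h5 ζ (Or.inr ⟨mem_iUnion.2 ⟨j, h7.le, h8⟩, h7⟩)) (not_le.2 h6)
    · exact ⟨γ, fun h' => (h h').elim⟩
  choose f hf using h3
  obtain ⟨η1, hη1⟩ := fodor_lite hO f η0 fun γ h => (hf γ h).1
  choose g hg1 hg2 using exists_gt_mem hO hη1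
  let lab : O → Set (O × ℕ) := fun x => {q | q.1 ≤ η1 ∧ ρ x q.1 = q.2 ∧ q.2 ≠ ρ η1 q.1}
  let C : Set (Set (O × ℕ)) := {T | T.Finite ∧ T ⊆ Iic η1 ×ˢ univ}
  have hC : C.Countable :=
    countable_ofPred_finite_subset ((countable_Iic hO η1).prod countable_univ)
  have := hC.to_subtype
  have hlab : ∀ x, η1 ≤ x → lab x ∈ C := by
    intro x hx
    refine ⟨((h2 x η1 hx).image fun α => (α, ρ x α)).subset ?_, fun q hq => ⟨hq.1, trivial⟩⟩
    rintro ⟨u, n⟩ ⟨b1, b2, b3⟩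
    simp only at b1 b2 b3
    exact ⟨u, ⟨b1, b2 ▸ b3⟩, by simp [b2]⟩
  have hlab2 : ∀ x y, lab x = lab y → ∀ ζ ≤ η1, ρ x ζ = ρ y ζ := by
    intro x y h ζ hζ
    by_cases b1 : ρ x ζ = ρ η1 ζ
    · by_cases b2 : ρ y ζ = ρ η1 ζ
      · rw [b1, b2]
      · have : (ζ, ρ y ζ) ∈ lab x := h ▸ ⟨hζ, rfl, b2⟩
        exact this.2.1
    · have : (ζ, ρ x ζ) ∈ lab y := h ▸ ⟨hζ, rfl, b1⟩
      exact this.2.1.symm
  let b : O → Option J → O := fun β o => o.elim (g (max β η1)) (a (g (max β η1)))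
  have hb : ∀ β o, η1 ≤ b β o := by
    intro β o
    have := (le_max_right β η1).trans (hg2 _).le
    cases o
    · exact this
    · exact this.trans (ha _ _)
  have hU : ¬ (Ici η1).Countable :=
    not_countable_of_unbounded hO fun x => ⟨max x η1, le_max_right _ _, le_max_left _ _⟩
  obtain ⟨k, hk⟩ := exists_uncountable_fibre hU fun β =>
    ((fun o => (⟨lab (b β o), hlab _ (hb β o)⟩ : C)), ρ (g β) β,
      {η | η ≤ β ∧ ρ (g β) η = ρ (g β) β}.ncard)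
  set B := {β ∈ Ici η1 | ((fun o => (⟨lab (b β o), hlab _ (hb β o)⟩ : C)), ρ (g β) β,
      {η | η ≤ β ∧ ρ (g β) η = ρ (g β) β}.ncard) = k} with hB
  have key : ∀ β ∈ B, ∀ β' ∈ B, β < β' → ∃ η ≤ β, ρ (g β) η ≠ ρ (g β') η := by
    intro β hβ β' hβ' hlt
    by_contra h
    push Not at h
    have e := hβ.2.trans hβ'.2.symm
    simp only [Prod.mk.injEq] at e
    obtain ⟨-, e1, e2⟩ := e
    have hfin : {η | η ≤ β' ∧ ρ (g β') η = ρ (g β') β'}.Finite :=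
      (h1 (g β') (ρ (g β') β')).subset fun η hη => ⟨hη.1.trans (hg2 β').le, hη.2.le⟩
    refine absurd e2 (ncard_lt_ncard ⟨?_, fun h' => ?_⟩ hfin).ne
    · intro η hη
      refine ⟨hη.1.trans hlt.le, ?_⟩
      rw [← h η hη.1, hη.2, e1]
    · have : β' ∈ {η | η ≤ β' ∧ ρ (g β') η = ρ (g β') β'} := ⟨le_rfl, rfl⟩
      exact absurd (h' this).1 (not_le.2 hlt)
  have key2 : ∀ β ∈ B, ∀ β' ∈ B, β ≠ β' → ∃ η, η ≤ β ∧ η ≤ β' ∧ ρ (g β) η ≠ ρ (g β') η := by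
    intro β hβ β' hβ' hne
    rcases lt_or_gt_of_ne hne with h | h
    · obtain ⟨η, b1, b2⟩ := key β hβ β' hβ' h
      exact ⟨η, b1, b1.trans h.le, b2⟩
    · obtain ⟨η, b1, b2⟩ := key β' hβ' β hβ h
      exact ⟨η, b1.trans h.le, b1, b2.symm⟩
  refine ⟨g '' B, fun h => hk (countable_of_injective_of_countable_image (f := g)
    (fun β hβ β' hβ' e => ?_) h), ?_⟩
  · by_contra hne
    obtain ⟨η, -, -, b1⟩ := key2 β hβ β' hβ' hne
    exact b1 (by rw [e])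
  rintro _ ⟨β, hβ, rfl⟩ _ ⟨β', hβ', rfl⟩ hne
  obtain ⟨η, b1, b2, b3⟩ := key2 β hβ β' hβ' fun h => hne (by rw [h])
  have hne2 : ({η | ρ (g β) η ≠ ρ (g β') η} : Set O).Nonempty := ⟨η, b3⟩
  have c1 : ρ (g β) (wellFounded_lt.min _ hne2) ≠ ρ (g β') (wellFounded_lt.min _ hne2) :=
    wellFounded_lt.min_mem _ hne2
  have c2 : ∀ ζ < wellFounded_lt.min _ hne2, ρ (g β) ζ = ρ (g β') ζ := fun ζ hζ => by
    by_contra h
    exact wellFounded_lt.not_lt_min {η | ρ (g β) η ≠ ρ (g β') η} h hζ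
  have c3 : wellFounded_lt.min _ hne2 ≤ η :=
    not_lt.1 (wellFounded_lt.not_lt_min {η | ρ (g β) η ≠ ρ (g β') η} b3)
  generalize wellFounded_lt.min _ hne2 = ξ at c1 c2 c3
  have e : ∀ o, lab (b β o) = lab (b β' o) := fun o =>
    congrArg Subtype.val (congrFun (congrArg Prod.fst (hβ.2.trans hβ'.2.symm)) o)
  have e1 : max β η1 = β := max_eq_left hβ.1
  have e2 : max β' η1 = β' := max_eq_left hβ'.1
  have e3 : ∀ ζ ≤ η1, ρ (g β) ζ = ρ (g β') ζ := by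
    have := hlab2 _ _ (e none)
    simpa only [b, Option.elim, e1, e2] using this
  have e4 : ∀ j, ∀ ζ ≤ η1, ρ (a (g β) j) ζ = ρ (a (g β') j) ζ := by
    intro j
    have := hlab2 _ _ (e (some j))
    simpa only [b, Option.elim, e1, e2] using this
  have c4 : η1 < ξ := not_le.1 fun h => c1 (e3 ξ h)
  have c5 : ξ < g β := (c3.trans b1).trans_lt (hg2 β)
  have c6 : ξ < g β' := (c3.trans b2).trans_lt (hg2 β')
  obtain ⟨-, d1, d2⟩ := hf _ (hg1 β).1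
  obtain ⟨-, -, d4⟩ := hf _ (hg1 β').1
  refine ⟨ξ, (d1.trans (hg1 β).2).trans_lt c4, c5.le, c6.le, fun j ζ hζ => ?_, fun j l => ?_⟩
  · rcases le_or_gt ζ η1 with h | h
    · exact e4 j ζ h
    · rw [d2 j ζ ((hg1 β).2.trans_lt h) (hζ.trans c5), d4 j ζ ((hg1 β').2.trans_lt h) (hζ.trans c6),
        c2 ζ hζ]
  · rw [d2 j ξ ((hg1 β).2.trans_lt c4) c5, d4 l ξ ((hg1 β').2.trans_lt c4) c6]
    exact c1

end Pool.Agent.P.MP_78a647_lc
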