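import Pool.Agent.P.MP_78a647_lc.Core

/-!
The amalgamation step and the core contradiction.
-/

namespace Pool.Agent.P.MP_78a647_lc

open Set

variable {O : Type}

theorem exists_modulus {κ : Type} (c : O → O → Prop) (cls : ℕ → O → κ)
    (hmono : ∀ m m', m ≤ m' → ∀ p q, cls m' p = cls m' q → cls m p = cls m q)
    (hc : ∀ x y, x ≠ y → ∃ m, ∀ y', y' ≠ x → cls m y' = cls m y → (c x y' ↔ c x y))
    {I : Type} [Finite I] (a b : I → O) :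
    ∃ m, ∀ ι ι', a ι' ≠ b ι → ∀ y, y ≠ a ι' → cls m y = cls m (b ι) →
      (c (a ι') y ↔ c (a ι') (b ι)) := by
  have : ∀ p : I × I, ∃ m, a p.2 ≠ b p.1 → ∀ y, y ≠ a p.2 → cls m y = cls m (b p.1) →
      (c (a p.2) y ↔ c (a p.2) (b p.1)) := by
    intro p
    by_cases h : a p.2 = b p.1
    · exact ⟨0, fun h' => (h' h).elim⟩
    · obtain ⟨m, hm⟩ := hc _ _ h
      exact ⟨m, fun _ => hm⟩
  choose M hM using this
  obtain ⟨m, hm⟩ := (finite_range M).bddAbove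
  exact ⟨m, fun ι ι' h y hy h2 => hM (ι, ι') h y hy (hmono _ _ (hm ⟨_, rfl⟩) _ _ h2)⟩

variable [LinearOrder O]

theorem stepB1 [WellFoundedLT O] [Uncountable O] (hO : ∀ a : O, (Iio a).Countable)
    {κ : Type} [Countable κ] (c : O → O → Prop) (cls : ℕ → O → κ)
    (hmono : ∀ m m', m ≤ m' → ∀ p q, cls m' p = cls m' q → cls m p = cls m q)
    (hc : ∀ x y, x ≠ y → ∃ m, ∀ y', y' ≠ x → cls m y' = cls m y → (c x y' ↔ c x y))
    {I : Type} [Finite I]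
    (hA : ∀ (a : O → I → O) (S : Set O), ¬ S.Countable →
      ∃ β ∈ S, ∃ β' ∈ S, β ≠ β' ∧ ∀ ι, a β ι = a β' ι ∨ ¬ c (a β ι) (a β' ι))
    {X : Type} (a : X → I → O) (H : Set I) (M : O → X → Prop)
    (hM : ∀ β β' x, β' ≤ β → M β x → M β' x) (hH : ∀ β x, M β x → ∀ ι ∈ H, β ≤ a x ι)
    (hR : ∀ β, ∃ x, M β x) :
    ∃ (m : ℕ) (w : I → κ) (x1 : X), (∃ β, M β x1) ∧
      (∀ β, ∃ x, M β x ∧ ∀ ι, cls m (a x ι) = w ι) ∧
      ∀ y : I → O, (∀ ι, cls m (y ι) = w ι) → (∀ ι ∈ H, ∀ ι', y ι ≠ a x1 ι') →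
        ∀ ι ∈ H, ¬ c (a x1 ι) (y ι) ∧
          ∀ ι', a x1 ι' ≠ a x1 ι → (c (a x1 ι') (y ι) ↔ c (a x1 ι') (a x1 ι)) := by
  have h0 : ∀ p : ℕ × (I → κ), ∃ β, (¬ ∀ β, ∃ x, M β x ∧ ∀ ι, cls p.1 (a x ι) = p.2 ι) →
      ∀ x, M β x → ¬ ∀ ι, cls p.1 (a x ι) = p.2 ι := by
    intro p
    by_cases h : ∀ β, ∃ x, M β x ∧ ∀ ι, cls p.1 (a x ι) = p.2 ι
    · obtain ⟨β⟩ : Nonempty O := inferInstance
      exact ⟨β, fun h' => (h' h).elim⟩
    · obtain ⟨β, hβ⟩ := not_forall.1 h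
      exact ⟨β, fun _ x h1 h2 => hβ ⟨x, h1, h2⟩⟩
  choose B hB using h0
  obtain ⟨β0, hβ0⟩ := exists_gt_of_countable hO (countable_range B)
  choose t ht using fun β => hR (max β β0)
  have hreal : ∀ β m β', ∃ x, M β' x ∧ ∀ ι, cls m (a x ι) = cls m (a (t β) ι) := by
    intro β m
    by_contra h
    exact hB (m, fun ι => cls m (a (t β) ι)) h (t β)
      (hM _ _ _ ((hβ0 _ ⟨_, rfl⟩).le.trans (le_max_right _ _)) (ht β)) fun _ => rfl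
  choose Md hMd using fun β => exists_modulus c cls hmono hc (a (t β)) (a (t β))
  obtain ⟨⟨m, w0⟩, hS⟩ := exists_uncountable_fibre (S := (univ : Set O)) not_countable_univ
    (fun β => (Md β, fun ι => cls (Md β) (a (t β) ι)))
  choose f hf using fun β => exists_gt_of_countable hO (finite_range (a (t β))).countable
  obtain ⟨T, hT1, hT2, hT3⟩ := exists_sparse hO hS f
  obtain ⟨β, hβ, β', hβ', hne, hd⟩ := hA (fun β => a (t β)) T hT2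
  have hlt : ∀ β ∈ T, ∀ β' ∈ T, β < β' → ∀ ι ∈ H, a (t β) ι < a (t β') ι := by
    intro β hβ β' hβ' h ι hι
    exact ((hf β _ ⟨ι, rfl⟩).trans (hT3 β hβ β' hβ' h)).trans_le
      ((le_max_left _ _).trans (hH _ _ (ht β') ι hι))
  have hne2 : ∀ ι ∈ H, a (t β) ι ≠ a (t β') ι := by
    intro ι hι
    rcases lt_or_gt_of_ne hne with h | h
    · exact (hlt β hβ β' hβ' h ι hι).ne
    · exact (hlt β' hβ' β hβ h ι hι).ne'
  obtain ⟨m1, hm1⟩ := exists_modulus c cls hmono hc (a (t β)) (a (t β'))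
  have e1 := Prod.ext_iff.1 (hT1 hβ).2
  have e2 := Prod.ext_iff.1 (hT1 hβ').2
  simp only at e1 e2
  refine ⟨max m m1, fun ι => cls (max m m1) (a (t β') ι), t β, ⟨_, ht β⟩, hreal β' _,
    fun y hy1 hy2 ι hι => ⟨?_, fun ι' h => ?_⟩⟩
  · rw [hm1 ι ι (hne2 ι hι) (y ι) (hy2 ι hι ι) (hmono _ _ (le_max_right _ _) _ _ (hy1 ι))]
    exact (hd ι).resolve_left (hne2 ι hι)
  · refine hMd β ι ι' h (y ι) (hy2 ι hι ι') ?_
    have a1 := hmono _ _ (le_max_left _ _) _ _ (hy1 ι)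
    have a2 := congrFun e1.2 ι
    have a3 := congrFun e2.2 ι
    rw [e2.1] at a3
    rw [a2, e1.1, a1, a3]

theorem stepB [WellFoundedLT O] [Uncountable O] (hO : ∀ a : O, (Iio a).Countable)
    {κ : Type} [Countable κ] (c : O → O → Prop) (hs : ∀ x y, c x y → c y x) (cls : ℕ → O → κ)
    (hmono : ∀ m m', m ≤ m' → ∀ p q, cls m' p = cls m' q → cls m p = cls m q)
    (hc : ∀ x y, x ≠ y → ∃ m, ∀ y', y' ≠ x → cls m y' = cls m y → (c x y' ↔ c x y))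
    (hA : ∀ (I : Type) [Finite I] (a : O → I → O) (S : Set O), ¬ S.Countable →
      ∃ β ∈ S, ∃ β' ∈ S, β ≠ β' ∧ ∀ ι, a β ι = a β' ι ∨ ¬ c (a β ι) (a β' ι))
    (hB : ∀ S : Set O, ¬ S.Countable → ∃ a ∈ S, ∃ b ∈ S, a ≠ b ∧ c a b)
    (φ : O → ℕ → O) (i : Bool) (𝒜 : Set (Finset O))
    (hcl : ∀ s ∈ 𝒜, (s : Set O).Pairwise (KK c φ i))
    {k n0 : ℕ} (H : Set (J k n0)) (D : J k n0 → O) (hn0 : n0.bodd = i) (hj : ∃ j, Sum.inl j ∈ H)
    (hΞ : ¬ {ξ | ∀ β, ∃ x, Mt 𝒜 φ H D ξ β x}.Countable) :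
    ∃ s ∈ 𝒜, ∃ s' ∈ 𝒜, s ≠ s' ∧ ((s : Set O) ∪ s').Pairwise (KK c φ i) := by
  have h1 : ∀ ξ : {ξ | ∀ β, ∃ x, Mt 𝒜 φ H D ξ β x}, _ := fun ξ =>
    stepB1 hO c cls hmono hc (hA (J k n0)) (pts φ n0) H (Mt 𝒜 φ H D ξ.1)
      (fun _ _ _ h h' => h'.mono h) (fun _ _ h => h.2.1) ξ.2
  choose m w x1 hx1 hx2 hx3 using h1
  have hU : ¬ (univ : Set {ξ | ∀ β, ∃ x, Mt 𝒜 φ H D ξ β x}).Countable := by
    rw [countable_univ_iff]
    exact fun h => hΞ (countable_coe_iff.1 h)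
  obtain ⟨p, hp⟩ := exists_uncountable_fibre hU (fun ξ => (m ξ, w ξ))
  obtain ⟨_, ⟨ξ, hξ, rfl⟩, _, ⟨ξ', hξ', rfl⟩, hne, hcc⟩ := hB _
    (fun h => hp (countable_of_injective_of_countable_image Subtype.val_injective.injOn h))
  have e := Prod.ext_iff.1 (hξ'.2.trans hξ.2.symm)
  simp only at e
  obtain ⟨β, hβ⟩ := exists_gt_of_countable hO (finite_range (pts φ n0 (x1 ξ))).countable
  obtain ⟨x2, ⟨⟨s2, hs2, hr2⟩, a2, b2, c2⟩, hw⟩ := hx2 ξ' β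
  rw [e.1, e.2] at hw
  obtain ⟨β1, ⟨s1, hs1, hr1⟩, -, b1, c1⟩ := hx1 ξ
  have hgt : ∀ ι ∈ H, ∀ ι', pts φ n0 x2 ι ≠ pts φ n0 (x1 ξ) ι' := fun ι hι ι' =>
    ((hβ _ ⟨ι', rfl⟩).trans_le (a2 ι hι)).ne'
  have key := hx3 ξ (pts φ n0 x2) hw hgt
  have p1 := hcl s1 hs1
  have p2 := hcl s2 hs2
  rw [hr1] at p1
  rw [hr2] at p2
  have cross : ∀ j l, x1 ξ j ≠ x2 l → KK c φ i (x1 ξ j) (x2 l) := by
    intro j l hjl
    by_cases hjH : Sum.inl j ∈ H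
    swap
    · have : x1 ξ j = x2 j := (b1 _ hjH).trans (b2 _ hjH).symm
      rw [this] at hjl ⊢
      exact p2 ⟨j, rfl⟩ ⟨l, rfl⟩ hjl
    by_cases hlH : Sum.inl l ∈ H
    swap
    · have : x2 l = x1 ξ l := (b2 _ hlH).trans (b1 _ hlH).symm
      rw [this] at hjl ⊢
      exact p1 ⟨j, rfl⟩ ⟨l, rfl⟩ hjl
    have hW : ∀ n < n0, (Wit c φ (x1 ξ j) (x2 l) n ↔ Wit c φ (x1 ξ j) (x1 ξ l) n) := by
      intro n hn
      by_cases h : Sum.inr (⟨n, hn⟩, l) ∈ H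
      · obtain ⟨k1, k2⟩ := key _ h
        have k3 := hgt _ h (Sum.inr (⟨n, hn⟩, j))
        have k4 := k2 (Sum.inr (⟨n, hn⟩, j))
        change φ (x2 l) n ≠ φ (x1 ξ j) n at k3
        change ¬ c (φ (x1 ξ l) n) (φ (x2 l) n) at k1
        change φ (x1 ξ j) n ≠ φ (x1 ξ l) n →
          (c (φ (x1 ξ j) n) (φ (x2 l) n) ↔ c (φ (x1 ξ j) n) (φ (x1 ξ l) n)) at k4
        by_cases h2 : φ (x1 ξ j) n = φ (x1 ξ l) n
        · refine ⟨fun h3 => (k1 ?_).elim, fun h3 => (h3.1 h2).elim⟩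
          rw [← h2]
          exact h3.2
        · exact ⟨fun h3 => ⟨h2, (k4 h2).1 h3.2⟩, fun h3 => ⟨k3.symm, (k4 h2).2 h3.2⟩⟩
      · have : φ (x2 l) n = φ (x1 ξ l) n := (b2 _ h).trans (b1 _ h).symm
        unfold Wit
        rw [this]
    have hn0W : Wit c φ (x1 ξ j) (x2 l) n0 := by
      unfold Wit
      rw [c1 j hjH, c2 l hlH]
      exact ⟨hne, hcc⟩
    by_cases h : ∃ n < n0, Wit c φ (x1 ξ j) (x1 ξ l) n
    · obtain ⟨n, hn, hw⟩ := h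
      have : x1 ξ j ≠ x1 ξ l := fun h => hw.1 (by rw [h])
      obtain ⟨n1, d1, d2, d3⟩ := p1 ⟨j, rfl⟩ ⟨l, rfl⟩ this
      have d4 : n1 ≤ n := not_lt.1 fun h => d3 n h hw
      exact ⟨n1, (hW n1 (d4.trans_lt hn)).2 d1, d2, fun m hm h =>
        d3 m hm ((hW m (hm.trans (d4.trans_lt hn))).1 h)⟩
    · exact ⟨n0, hn0W, hn0, fun m hm h' => h ⟨m, hm, (hW m hm).1 h'⟩⟩
  refine ⟨s1, hs1, s2, hs2, fun h => ?_, ?_⟩
  · obtain ⟨j, hj⟩ := hj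
    have : x2 j ∈ range (x1 ξ) := by rw [← hr1, h, hr2]; exact ⟨j, rfl⟩
    obtain ⟨l, hl⟩ := this
    exact hgt _ hj (Sum.inl l) hl.symm
  · rw [hr1, hr2]
    rintro u (hu | hu) v (hv | hv) huv
    · exact p1 hu hv huv
    · obtain ⟨j, rfl⟩ := hu
      obtain ⟨l, rfl⟩ := hv
      exact cross j l huv
    · obtain ⟨j, rfl⟩ := hu
      obtain ⟨l, rfl⟩ := hv
      exact (cross l j huv.symm).symm hs
    · exact p2 hu hv huv

theorem core [WellFoundedLT O] [Uncountable O] (hO : ∀ a : O, (Iio a).Countable)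
    (b : O → ℕ → Bool) (hb : Function.Injective b)
    {κ : Type} [Countable κ] (c : O → O → Prop) (hs : ∀ x y, c x y → c y x) (cls : ℕ → O → κ)
    (hmono : ∀ m m', m ≤ m' → ∀ p q, cls m' p = cls m' q → cls m p = cls m q)
    (hc : ∀ x y, x ≠ y → ∃ m, ∀ y', y' ≠ x → cls m y' = cls m y → (c x y' ↔ c x y))
    (hA : ∀ (I : Type) [Finite I] (a : O → I → O) (S : Set O), ¬ S.Countable →
      ∃ β ∈ S, ∃ β' ∈ S, β ≠ β' ∧ ∀ ι, a β ι = a β' ι ∨ ¬ c (a β ι) (a β' ι))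
    (hB : ∀ S : Set O, ¬ S.Countable → ∃ a ∈ S, ∃ b ∈ S, a ≠ b ∧ c a b) : ¬ PCCC := by
  classical
  intro hP
  obtain ⟨g, hg⟩ := exists_two_stationary hO b hb
  obtain ⟨φ, hφ, nx, px, hnx, hpx, hφ2⟩ := exists_phi hO b hb g
  have hccc : ∀ i, CCC (Hom (KK c φ i)) := by
    intro i A hA'
    by_contra hA2
    let 𝒜 : Set (Finset O) := (fun p : Hom (KK c φ i) => (OrderDual.ofDual p).1) '' A
    have h𝒜 : ¬ 𝒜.Countable := fun h =>
      hA2 (countable_of_injective_of_countable_image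
        (fun p _ q _ h => Subtype.ext h) h)
    obtain ⟨k, n0, H, D, h1, h2, h3⟩ := stepA hO g i (hg i) φ hφ nx px hnx hpx hφ2 𝒜 h𝒜
    obtain ⟨_, ⟨p, hp, rfl⟩, _, ⟨q, hq, rfl⟩, h4, h5⟩ := stepB hO c hs cls hmono hc hA hB φ i 𝒜
      (by rintro _ ⟨p, -, rfl⟩; exact (OrderDual.ofDual p).2) H D h1 h2 h3
    refine hA' hp hq (fun h => h4 (by rw [h])) ⟨OrderDual.toDual ⟨_ ∪ _, ?_⟩,
      Finset.subset_union_left, Finset.subset_union_right⟩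
    rw [Finset.coe_union]
    exact h5
  let e : O → Hom (KK c φ true) × Hom (KK c φ false) := fun x =>
    (OrderDual.toDual ⟨{x}, by simp⟩, OrderDual.toDual ⟨{x}, by simp⟩)
  have he : Function.Injective e := fun x y h =>
    Finset.singleton_injective (congrArg (fun p => (OrderDual.ofDual p.1).1) h)
  have := hP _ _ (hccc true) (hccc false) (range e) (by
    rintro _ ⟨x, rfl⟩ _ ⟨y, rfl⟩ hxy ⟨r, h1, h2⟩
    have hne : x ≠ y := fun h => hxy (by rw [h])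
    have a1 : x ∈ (OrderDual.ofDual r.1).1 := Finset.singleton_subset_iff.1 h1.1
    have a2 : y ∈ (OrderDual.ofDual r.1).1 := Finset.singleton_subset_iff.1 h2.1
    have a3 : x ∈ (OrderDual.ofDual r.2).1 := Finset.singleton_subset_iff.1 h1.2
    have a4 : y ∈ (OrderDual.ofDual r.2).1 := Finset.singleton_subset_iff.1 h2.2
    exact KK.excl ((OrderDual.ofDual r.1).2 a1 a2 hne) ((OrderDual.ofDual r.2).2 a3 a4 hne))
  rw [← image_univ] at this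
  exact not_countable_univ (countable_of_injective_of_countable_image he.injOn this)

end Pool.Agent.P.MP_78a647_lc
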